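import Mathlib

set_option autoImplicit false

namespace Pool.Agent.Lib.MP_54fa60_lc

/-- A rule `(A → x, U, W)` of a one-sided random context grammar. -/
structure Rule (T N : Type) where
  /-- the rewritten nonterminal `A` -/
  lhs : N
  /-- the right-hand side `x` -/
  rhs : List (Symbol T N)
  /-- the permitting set `U` -/
  perm : Finset N
  /-- the forbidding set `W` -/
  forb : Finset N

/-- A one-sided random context grammar `G = (N, T, P_L, P_R, S)` over the terminal alphabet `T`. -/
structure Grammar (T : Type) where
  /-- the nonterminal alphabet -/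
  N : Type
  /-- the nonterminal alphabet is finite -/
  finN : Finite N
  /-- the left random context rules -/
  PL : Finset (Rule T N)
  /-- the right random context rules -/
  PR : Finset (Rule T N)
  /-- the start symbol -/
  S : N

/-- The context `c` contains every symbol of `U` and no symbol of `W`. -/
def Rule.Allows {T N : Type} (r : Rule T N) (c : List (Symbol T N)) : Prop :=
  (∀ B ∈ r.perm, Symbol.nonterminal B ∈ c) ∧ (∀ B ∈ r.forb, Symbol.nonterminal B ∉ c)

/-- One derivation step `u A v ⇒ u x v`. -/
def Grammar.Step {T : Type} (G : Grammar T) (s s' : List (Symbol T G.N)) : Prop :=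
  ∃ (r : Rule T G.N) (u v : List (Symbol T G.N)),
    s = u ++ [Symbol.nonterminal r.lhs] ++ v ∧ s' = u ++ r.rhs ++ v ∧
      ((r ∈ G.PL ∧ r.Allows u) ∨ (r ∈ G.PR ∧ r.Allows v))

/-- The generated language `L(G) = {w ∈ T* : S ⇒* w}`. -/
def Grammar.language {T : Type} (G : Grammar T) : Language T :=
  {w : List T | Relation.ReflTransGen G.Step [Symbol.nonterminal G.S] (w.map Symbol.terminal)}

/-- `G` is one-sided permitting: `W = ∅` in every rule. -/
def Grammar.Permitting {T : Type} (G : Grammar T) : Prop :=
  ∀ r : Rule T G.N, r ∈ G.PL ∨ r ∈ G.PR → r.forb = ∅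

/-- `G` is propagating: no rule has an empty right-hand side. -/
def Grammar.Propagating {T : Type} (G : Grammar T) : Prop :=
  ∀ r : Rule T G.N, r ∈ G.PL ∨ r ∈ G.PR → r.rhs ≠ []

end Pool.Agent.Lib.MP_54fa60_lc
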