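import Pool.Agent.Lib.MP_54fa60_lc.Par

set_option autoImplicit false

namespace Pool.Agent.Lib.MP_54fa60_lc

variable {X : Type}

/-- A vanishing run whose right context is unrestricted. -/
def LRun (σ : ℕ → Let X) (C : ℕ → Set X) (t0 T : ℕ) (π : ℕ → List X) : Prop :=
  Run σ C (fun _ => Set.univ) t0 T π ∧ π T = []

section
variable {σ : ℕ → Let X} {T : ℕ}

theorem LRun.mono {C C' : ℕ → Set X} {t0 : ℕ} {π : ℕ → List X} (h : LRun σ C t0 T π)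
    (hC : ∀ t, t0 ≤ t → t < T → C t ⊆ C' t) : LRun σ C' t0 T π :=
  ⟨h.1.mono hC (fun _ _ _ => le_rfl), h.2⟩

theorem LRun.append {C : ℕ → Set X} {t0 : ℕ} {π ρ : ℕ → List X} (h : LRun σ C t0 T π)
    (h' : LRun σ (fun t => C t ∪ ct (π t)) t0 T ρ) : LRun σ C t0 T (fun t => π t ++ ρ t) :=
  ⟨Run.append (h.1.mono (fun _ _ _ => le_rfl) (fun _ _ _ => Set.subset_union_left)) h'.1,
    by simp [h.2, h'.2]⟩

theorem LRun.append' {C : ℕ → Set X} {t0 : ℕ} {π ρ : ℕ → List X} (h : LRun σ C t0 T π)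
    (h' : LRun σ C t0 T ρ) : LRun σ C t0 T (fun t => π t ++ ρ t) :=
  h.append (h'.mono (fun _ _ _ => Set.subset_union_left))

theorem LRun.nil (C : ℕ → Set X) (t0 : ℕ) : LRun σ C t0 T (fun _ => []) :=
  ⟨Run.nil _ _ _ _ _, rfl⟩

theorem LRun.lt_of_mem {C : ℕ → Set X} {t0 : ℕ} {π : ℕ → List X} (h : LRun σ C t0 T π) {t : ℕ}
    {Y : X} (hY : Y ∈ π t) (ht : t ≤ T) : t < T := by
  rcases ht.lt_or_eq with h1 | rfl
  · exact h1
  · rw [h.2] at hY; simp at hY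

/-- A single `Y` placed at time `t` can vanish with left context `C`. -/
def Vn (σ : ℕ → Let X) (T : ℕ) (C : ℕ → Set X) (t : ℕ) (Y : X) : Prop :=
  ∃ ρ : ℕ → List X, ρ t = [Y] ∧ LRun σ C t T ρ

theorem vn_of_mem {C C' : ℕ → Set X} {t0 t : ℕ} {π : ℕ → List X} (h : LRun σ C t0 T π)
    (h0 : t0 ≤ t) (ht : t < T) {Y : X} (hY : Y ∈ π t)
    (hC : ∀ s, t ≤ s → s < T → C s ∪ ct (π s) ⊆ C' s) : Vn σ T C' t Y := by
  obtain ⟨p, q, e⟩ := List.append_of_mem hY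
  have e' : π t = p ++ [Y] ++ q := by simp [e]
  obtain ⟨ζp, ζa, ζq, -, ea, -, es, -, ra, -⟩ := (h.1.later h0).split3 e'
  refine ⟨ζa, ea, ra.mono (fun s g1 g2 => ?_) (fun _ _ _ => Set.subset_univ _), ?_⟩
  · refine Set.Subset.trans ?_ (hC s g1 g2)
    rw [es s g1 g2.le]
    intro b hb; simp at hb ⊢; tauto
  · have := es T ht.le le_rfl
    rw [h.2] at this
    simp at this
    exact this.2.1

theorem Vn.hold {C : ℕ → Set X} {t1 t2 : ℕ} {Y : X} (h : Vn σ T C t2 Y) (h2 : t2 < T) :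
    ∃ ρ : ℕ → List X, (∀ t, t ≤ t2 → ρ t = [Y]) ∧ LRun σ C t1 T ρ := by
  obtain ⟨ρ, e, r⟩ := h
  refine ⟨fun t => if t ≤ t2 then [Y] else ρ t, fun t ht => by simp [ht], ?_, ?_⟩
  · exact Run.glue (ζ := fun _ => [Y]) (fun t _ _ => Par.refl _ _ _ _) r.1 e.symm
  · simp [show ¬ T ≤ t2 by omega, r.2]

theorem Vn.earlier {C : ℕ → Set X} {t1 t2 : ℕ} {Y : X} (h : Vn σ T C t2 Y) (h2 : t2 < T)
    (h12 : t1 ≤ t2) : Vn σ T C t1 Y := by
  obtain ⟨ρ, e, r⟩ := h.hold (t1 := t1) h2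
  exact ⟨ρ, e t1 h12, r⟩

theorem vn_list {C : ℕ → Set X} {t : ℕ} (l : List X) (h : ∀ B ∈ l, Vn σ T C t B) :
    ∃ ρ : ℕ → List X, ρ t = l ∧ LRun σ C t T ρ := by
  induction l with
  | nil => exact ⟨fun _ => [], rfl, LRun.nil _ _⟩
  | cons B l ih =>
    obtain ⟨ρ, e, r⟩ := h B (by simp)
    obtain ⟨ρ', e', r'⟩ := ih (fun B' hB => h B' (by simp [hB]))
    exact ⟨fun s => ρ s ++ ρ' s, by simp [e, e'], r.append' r'⟩

theorem fire {C : ℕ → Set X} {t : ℕ} (t1 : ℕ) (ht : t < T) (hW : (σ t).WL ⊆ C t)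
    (hx : ∀ B ∈ (σ t).x, Vn σ T C (t + 1) B) :
    ∃ ρ : ℕ → List X, (∀ s, s ≤ t → ρ s = [(σ t).A]) ∧ ρ (t + 1) = (σ t).x ∧
      LRun σ C t1 T ρ := by
  obtain ⟨ρ, e, r⟩ := vn_list _ hx
  refine ⟨fun s => if s ≤ t then [(σ t).A] else ρ s, fun s hs => by simp [hs], by simp [e], ?_,
    by simp [show ¬ T ≤ t by omega, r.2]⟩
  intro s _ g2
  rcases lt_trichotomy s t with c | rfl | c
  · simp only [if_pos c.le, if_pos (show s + 1 ≤ t from c)]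
    exact Par.refl _ _ _ _
  · simp only [le_refl, if_true, show ¬ s + 1 ≤ s by omega, if_false, e]
    exact Par.single hW (Set.subset_univ _)
  · simp only [show ¬ s ≤ t by omega, show ¬ s + 1 ≤ t by omega, if_false]
    exact r.1 s c g2

theorem splice {C C' : ℕ → Set X} {t1 : ℕ} {π ρ : ℕ → List X} {Y : X} (h : LRun σ C 0 T π)
    (hY : Y ∈ π t1) (ht : t1 < T) (e : ρ t1 = [Y]) (r : LRun σ C' t1 T ρ)
    (hC : ∀ s, s < T → C s ∪ ct (π s) ⊆ C' s) :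
    ∃ π' : ℕ → List X, π' 0 = π 0 ∧ LRun σ C' 0 T π' ∧
      ∀ t, t1 ≤ t → t ≤ T → ct (ρ t) ⊆ ct (π' t) := by
  obtain ⟨p, q, e0⟩ := List.append_of_mem hY
  have e' : π t1 = p ++ [Y] ++ q := by simp [e0]
  obtain ⟨ζp, ζa, ζq, ep, -, eq, es, rp, -, rq⟩ := (h.1.later (Nat.zero_le t1)).split3 e'
  have hT := es T ht.le le_rfl
  rw [h.2] at hT
  simp at hT
  have rr : Run σ C' (fun _ => Set.univ) t1 T (fun t => ζp t ++ ρ t ++ ζq t) := by
    refine Run.append3 (rp.mono (fun s _ g2 => ?_) (fun _ _ _ => by simp))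
      (r.1.mono (fun _ _ _ => Set.subset_union_left) (fun _ _ _ => by simp))
      (rq.mono (fun s g1 g2 => ?_) (fun _ _ _ => le_rfl))
    · exact Set.subset_union_left.trans (hC s g2)
    · refine Set.Subset.trans ?_ ((hC s g2).trans
        (Set.subset_union_left.trans Set.subset_union_left))
      rw [es s g1 g2.le]
      intro b hb; simp at hb ⊢; tauto
  have r0 : Run σ C' (fun _ => Set.univ) 0 t1 π := fun s g1 g2 =>
    (h.1 s g1 (by omega)).mono (Set.subset_union_left.trans (hC s (by omega))) le_rfl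
  refine ⟨fun t => if t ≤ t1 then π t else ζp t ++ ρ t ++ ζq t, by simp,
    ⟨Run.glue r0 rr (by simp [e', ep, eq, e]), ?_⟩, ?_⟩
  · simp [show ¬ T ≤ t1 by omega, hT.1, hT.2.2, r.2]
  · intro t g1 _
    by_cases c : t ≤ t1
    · obtain rfl : t = t1 := by omega
      simp [e, hY]
    · simp only [if_neg c]
      intro b hb; simp at hb ⊢; tauto

end

section
variable (σ : ℕ → Let X) (T : ℕ) (S0 : Set X)

/-- symbols covered by runs of a single token with left context `C` -/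
def FF (C : ℕ → Set X) (t : ℕ) : Set X :=
  {Y | t < T ∧ ∃ a ∈ S0, ∃ π : ℕ → List X, π 0 = [a] ∧ LRun σ C 0 T π ∧ Y ∈ π t}

/-- interval closure -/
def II (S : ℕ → Set X) (t : ℕ) : Set X :=
  {Y | (Y ∈ S0 ∨ ∃ t1, t1 ≤ t ∧ Y ∈ S t1) ∧ ∃ t2, t ≤ t2 ∧ Y ∈ S t2}

/-- the levels -/
def Lev : ℕ → ℕ → Set X
  | 0 => fun _ => ∅
  | k + 1 => II S0 (FF σ T S0 (Lev k))

/-- step `t` is usable inside level `k` -/
def Use (k t : ℕ) : Prop :=
  t < T ∧ (σ t).A ∈ Lev σ T S0 k t ∧ (σ t).WL ⊆ Lev σ T S0 k t ∧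
    ∀ B ∈ (σ t).x, B ∈ Lev σ T S0 k (t + 1)

variable {σ T S0}

theorem FF_mono {C C' : ℕ → Set X} (h : ∀ t, C t ⊆ C' t) (t : ℕ) :
    FF σ T S0 C t ⊆ FF σ T S0 C' t := by
  rintro Y ⟨ht, a, ha, π, e, r, hY⟩
  exact ⟨ht, a, ha, π, e, r.mono (fun s _ _ => h s), hY⟩

theorem II_mono {S S' : ℕ → Set X} (h : ∀ t, S t ⊆ S' t) (t : ℕ) : II S0 S t ⊆ II S0 S' t := by
  rintro Y ⟨h1, t2, h2, h3⟩
  refine ⟨?_, t2, h2, h t2 h3⟩
  rcases h1 with h1 | ⟨t1, g1, g2⟩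
  · exact Or.inl h1
  · exact Or.inr ⟨t1, g1, h t1 g2⟩

theorem sub_II (S : ℕ → Set X) (t : ℕ) : S t ⊆ II S0 S t :=
  fun _ hY => ⟨Or.inr ⟨t, le_rfl, hY⟩, t, le_rfl, hY⟩

theorem FF_sub_Lev (k t : ℕ) : FF σ T S0 (Lev σ T S0 k) t ⊆ Lev σ T S0 (k + 1) t :=
  sub_II _ t

theorem Lev_succ (k t : ℕ) : Lev σ T S0 k t ⊆ Lev σ T S0 (k + 1) t := by
  induction k generalizing t with
  | zero => simp [Lev]
  | succ k ih => exact II_mono (FF_mono ih) t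

theorem Lev_mono {k k' : ℕ} (h : k ≤ k') (t : ℕ) : Lev σ T S0 k t ⊆ Lev σ T S0 k' t := by
  induction k', h using Nat.le_induction with
  | base => exact le_rfl
  | succ k' _ ih => exact ih.trans (Lev_succ _ _)

theorem Lev_lt {k t : ℕ} {Y : X} (h : Y ∈ Lev σ T S0 k t) : t < T := by
  cases k with
  | zero => simp [Lev] at h
  | succ k =>
    obtain ⟨-, t2, h2, h3, -⟩ := h
    omega

theorem Lev_interval {k t : ℕ} {Y : X} (h1 : Y ∈ S0 ∨ ∃ t1, t1 ≤ t ∧ Y ∈ Lev σ T S0 k t1)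
    (h2 : ∃ t2, t ≤ t2 ∧ Y ∈ Lev σ T S0 k t2) : Y ∈ Lev σ T S0 k t := by
  cases k with
  | zero => simp [Lev] at h2
  | succ k =>
    obtain ⟨t2, g1, -, t3, g2, g3⟩ := h2
    refine ⟨?_, t3, g1.trans g2, g3⟩
    rcases h1 with h1 | ⟨t1, g4, (h1 | ⟨t0, g5, g6⟩), -⟩
    · exact Or.inl h1
    · exact Or.inl h1
    · exact Or.inr ⟨t0, g5.trans g4, g6⟩

theorem Use.mono {k k' t : ℕ} (h : Use σ T S0 k t) (hk : k ≤ k') : Use σ T S0 k' t :=
  ⟨h.1, Lev_mono hk _ h.2.1, h.2.2.1.trans (Lev_mono hk _),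
    fun B hB => Lev_mono hk _ (h.2.2.2 B hB)⟩

theorem cover_sub {C : ℕ → Set X} {a : X} (ha : a ∈ S0) {π : ℕ → List X} (e : π 0 = [a])
    (r : LRun σ C 0 T π) {s : ℕ} (hs : s < T) : ct (π s) ⊆ FF σ T S0 C s :=
  fun _ hb => ⟨hs, a, ha, π, e, r, hb⟩

theorem vn_of_Lev {k t t2 : ℕ} {Y : X} (h : Y ∈ Lev σ T S0 k t2) (ht : t ≤ t2) :
    Vn σ T (Lev σ T S0 k) t Y := by
  cases k with
  | zero => simp [Lev] at h
  | succ k =>
    obtain ⟨-, t3, g2, g3, a, ha, π, e, r, hY⟩ := h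
    refine Vn.earlier (vn_of_mem r (Nat.zero_le _) g3 hY (fun s _ hs => ?_)) g3 (ht.trans g2)
    exact Set.union_subset (Lev_succ _ _) ((cover_sub ha e r hs).trans (FF_sub_Lev _ _))

theorem born_of_Lev {k t : ℕ} {Y : X} (h : Y ∈ S0 ∨ ∃ t1, t1 ≤ t ∧ Y ∈ Lev σ T S0 k t1) :
    ∃ t0, t0 ≤ t ∧ ∀ ρ : ℕ → List X, ρ t0 = [Y] → LRun σ (Lev σ T S0 k) t0 T ρ →
      ∀ s, t0 ≤ s → s < T → ct (ρ s) ⊆ Lev σ T S0 (k + 1) s := by
  have base : Y ∈ S0 → ∃ t0, t0 ≤ t ∧ ∀ ρ : ℕ → List X, ρ t0 = [Y] →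
      LRun σ (Lev σ T S0 k) t0 T ρ → ∀ s, t0 ≤ s → s < T → ct (ρ s) ⊆ Lev σ T S0 (k + 1) s :=
    fun hY => ⟨0, Nat.zero_le _, fun ρ e r s _ hs =>
      (cover_sub hY e r hs).trans (FF_sub_Lev _ _)⟩
  rcases h with h | ⟨t1, g1, h⟩
  · exact base h
  cases k with
  | zero => simp [Lev] at h
  | succ k =>
    obtain ⟨h | ⟨t0, g2, g3, a, ha, π, e, r, hY⟩, -⟩ := h
    · exact base h
    refine ⟨t0, g2.trans g1, fun ρ e' r' s g4 g5 => ?_⟩
    obtain ⟨π', e'', r'', hc⟩ := splice r hY g3 e' r' (fun s hs =>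
      Set.union_subset (Lev_succ _ _) ((cover_sub ha e r hs).trans (FF_sub_Lev _ _)))
    exact (hc s g4 g5.le).trans ((cover_sub ha (e''.trans e) r'' g5).trans (FF_sub_Lev _ _))

theorem use_of {k t : ℕ} (ht : t < T)
    (hA : (σ t).A ∈ S0 ∨ ∃ t1, t1 ≤ t ∧ (σ t).A ∈ Lev σ T S0 k t1)
    (hW : (σ t).WL ⊆ Lev σ T S0 k t)
    (hx : ∀ B ∈ (σ t).x, ∃ t2, t + 1 ≤ t2 ∧ B ∈ Lev σ T S0 k t2) : Use σ T S0 (k + 1) t := by
  obtain ⟨t0, g0, hb⟩ := born_of_Lev hA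
  obtain ⟨ρ, e1, e2, r⟩ := fire (σ := σ) (T := T) (C := Lev σ T S0 k) t0 ht hW (fun B hB => by
    obtain ⟨t2, g1, g2⟩ := hx B hB
    exact vn_of_Lev g2 g1)
  have hc := hb ρ (e1 t0 g0) r
  refine ⟨ht, hc t g0 ht (by simp [e1 t le_rfl]), hW.trans (Lev_succ _ _), fun B hB => ?_⟩
  obtain ⟨t2, g1, g2⟩ := hx B hB
  have := Lev_lt g2
  exact hc (t + 1) (by omega) (by omega) (by simpa [e2] using hB)

theorem exists_last {k t : ℕ} {Y : X} (h : Y ∈ Lev σ T S0 k t) :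
    ∃ d, t ≤ d ∧ Use σ T S0 k d ∧ (σ d).A = Y ∧ Y ∉ (σ d).WL := by
  classical
  have hd : Y ∈ Lev σ T S0 k (Nat.findGreatest (fun d => Y ∈ Lev σ T S0 k d) T) :=
    Nat.findGreatest_spec (P := fun d => Y ∈ Lev σ T S0 k d) (Lev_lt h).le h
  have hmax : ∀ s, Y ∈ Lev σ T S0 k s → s ≤ Nat.findGreatest (fun d => Y ∈ Lev σ T S0 k d) T :=
    fun s hs => Nat.le_findGreatest (Lev_lt hs).le hs
  generalize Nat.findGreatest (fun d => Y ∈ Lev σ T S0 k d) T = d at hd hmax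
  have hex : ∃ j, Y ∈ Lev σ T S0 j d := ⟨k, hd⟩
  have hj := Nat.find_spec hex
  have hjk : Nat.find hex ≤ k := Nat.find_min' hex hd
  have hjmin : ∀ i, i < Nat.find hex → Y ∉ Lev σ T S0 i d := fun i hi => Nat.find_min hex hi
  generalize Nat.find hex = j at hj hjk hjmin
  cases j with
  | zero => simp [Lev] at hj
  | succ j =>
    have hn := hjmin j (by omega)
    obtain ⟨-, t2, g1, g2⟩ := hj
    have : t2 ≤ d := hmax t2 (Lev_mono hjk _ (FF_sub_Lev _ _ g2))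
    obtain rfl : t2 = d := by omega
    obtain ⟨g3, a, ha, π, e, r, hY⟩ := g2
    have hsub : ∀ s, s < T → ct (π s) ⊆ Lev σ T S0 k s := fun s hs =>
      (cover_sub ha e r hs).trans ((FF_sub_Lev _ _).trans (Lev_mono hjk _))
    have hgone : Y ∉ π (t2 + 1) := by
      intro hc
      have := hmax _ (hsub _ (r.lt_of_mem hc g3) hc)
      omega
    obtain ⟨p1, p2, p3⟩ := (r.1 t2 (Nat.zero_le _) g3).gone hY hgone
    refine ⟨t2, hmax t h, ⟨g3, p1 ▸ hd, ?_, fun B hB => ?_⟩, p1, ?_⟩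
    · refine p2.trans (Set.union_subset (Lev_mono (by omega) _) ?_)
      exact Set.sdiff_subset.trans (hsub _ g3)
    · have hB' : B ∈ π (t2 + 1) := p3 hB
      exact hsub _ (r.lt_of_mem hB' g3) hB'
    · intro hc
      rcases p2 hc with g | g
      · exact hn g
      · exact g.2 rfl

theorem exists_birth {k t : ℕ} {Y : X} (h : Y ∈ Lev σ T S0 k t) :
    Y ∈ S0 ∨ ∃ t', t' < t ∧ Use σ T S0 k t' ∧ Y ∈ (σ t').x := by
  cases k with
  | zero => simp [Lev] at h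
  | succ k =>
    obtain ⟨h | ⟨t1, g2, g3, a, ha, π, e, r, hY⟩, -⟩ := h
    · exact Or.inl h
    have hsub : ∀ s, s < T → ct (π s) ⊆ Lev σ T S0 (k + 1) s := fun s hs =>
      (cover_sub ha e r hs).trans (FF_sub_Lev _ _)
    induction t1 with
    | zero =>
      left
      rw [e] at hY
      simp at hY
      exact hY ▸ ha
    | succ t1 ih =>
      by_cases c : Y ∈ π t1
      · exact ih (by omega) (by omega) c
      · obtain ⟨p1, p2, p3, p4⟩ := (r.1 t1 (Nat.zero_le _) (by omega)).new hY c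
        refine Or.inr ⟨t1, by omega, ⟨by omega, hsub _ (by omega) p2, ?_, fun B hB => ?_⟩, p1⟩
        · exact p3.trans (Set.union_subset (Lev_succ _ _) (hsub _ (by omega)))
        · exact hsub _ g3 (p4 hB)

end

end Pool.Agent.Lib.MP_54fa60_lc
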