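import Pool.Agent.Lib.MP_54fa60_lc.Marked

set_option autoImplicit false

namespace Pool.Agent.Lib.MP_54fa60_lc

variable {T : Type} {G : Grammar T}

/-- decoding one symbol of the propagating grammar -/
def decS {K : ℕ} : Symbol T (Car G K) → List (MS G)
  | Symbol.terminal a => [(Symbol.terminal a, true)]
  | Symbol.nonterminal κ => κ.1

/-- decoding a sentential form of the propagating grammar -/
def dec {K : ℕ} (s : List (Symbol T (Car G K))) : List (MS G) := s.flatMap decS

@[simp] theorem dec_append {K : ℕ} (s s' : List (Symbol T (Car G K))) :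
    dec (s ++ s') = dec s ++ dec s' := by simp [dec]

@[simp] theorem dec_nt {K : ℕ} (c : List (Car G K)) :
    dec (c.map Symbol.nonterminal) = decC c := by
  induction c with
  | nil => rfl
  | cons κ c ih => simp only [dec, decC, List.map_cons, List.flatMap_cons, decS] at ih ⊢; rw [ih]

@[simp] theorem dec_single {K : ℕ} (κ : Car G K) :
    dec [Symbol.nonterminal κ] = κ.1 := by simp [dec, decS]

@[simp] theorem dec_t {K : ℕ} (w : List T) :
    dec (G := G) (K := K) (w.map Symbol.terminal) = hat G w := by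
  induction w with
  | nil => rfl
  | cons a w ih =>
    simp only [dec, hat, List.map_cons, List.flatMap_cons, decS] at ih ⊢; rw [ih]; rfl

theorem mem_dec {K : ℕ} {s : List (Symbol T (Car G K))} {κ : Car G K}
    (h : Symbol.nonterminal κ ∈ s) {b : MS G} (hb : b ∈ κ.1) : b ∈ dec s :=
  List.mem_flatMap.mpr ⟨_, h, hb⟩

/-- sound left rules -/
def GoodL (K M : ℕ) (r : Rule T (Car G K)) : Prop :=
  r.forb = ∅ ∧ r.rhs ≠ [] ∧ r.rhs.length ≤ M ∧
    ∀ (α γ : List (Symbol T (Car G K))) (w : List T) (n : ℕ),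
      (∀ κ ∈ r.perm, Symbol.nonterminal κ ∈ α) → MDer G n (dec (α ++ r.rhs ++ γ)) w →
        ∃ m, MDer G m (dec (α ++ [Symbol.nonterminal r.lhs] ++ γ)) w

/-- sound right rules -/
def GoodR (K M : ℕ) (r : Rule T (Car G K)) : Prop :=
  r.forb = ∅ ∧ r.rhs ≠ [] ∧ r.rhs.length ≤ M ∧
    ∀ (α γ : List (Symbol T (Car G K))) (w : List T) (n : ℕ),
      (∀ κ ∈ r.perm, Symbol.nonterminal κ ∈ γ) → MDer G n (dec (α ++ r.rhs ++ γ)) w →
        ∃ m, MDer G m (dec (α ++ [Symbol.nonterminal r.lhs] ++ γ)) w

theorem finite_symbol (T N : Type) [Finite T] [Finite N] : Finite (Symbol T N) := by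
  cases nonempty_fintype T
  cases nonempty_fintype N
  infer_instance

theorem finite_MS [Finite T] (G : Grammar T) : Finite (MS G) := by
  have := G.finN
  have := finite_symbol T G.N
  infer_instance

theorem finite_Car [Finite T] (G : Grammar T) (K : ℕ) : Finite (Car G K) := by
  have := finite_MS G
  exact List.finite_length_le (MS G) (2 * K + 1)

theorem finite_rules (T N : Type) [Finite T] [Finite N] (M : ℕ) :
    {r : Rule T N | r.rhs.length ≤ M}.Finite := by
  cases nonempty_fintype N
  have := finite_symbol T N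
  have h1 := List.finite_length_le (Symbol T N) M
  have h2 := (Set.finite_univ (α := N)).prod (h1.prod
    ((Set.finite_univ (α := Finset N)).prod (Set.finite_univ (α := Finset N))))
  refine (h2.image (fun x => (⟨x.1, x.2.1, x.2.2.1, x.2.2.2⟩ : Rule T N))).subset ?_
  intro r hr
  exact ⟨(r.lhs, r.rhs, r.perm, r.forb), by simpa using hr, rfl⟩

theorem finite_GoodL [Finite T] (G : Grammar T) (K M : ℕ) :
    {r : Rule T (Car G K) | GoodL K M r}.Finite := by
  have := finite_Car G K
  exact (finite_rules T (Car G K) M).subset (fun r h => h.2.2.1)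

theorem finite_GoodR [Finite T] (G : Grammar T) (K M : ℕ) :
    {r : Rule T (Car G K) | GoodR K M r}.Finite := by
  have := finite_Car G K
  exact (finite_rules T (Car G K) M).subset (fun r h => h.2.2.1)

/-- The propagating grammar. -/
noncomputable abbrev propGrammar [Finite T] (G : Grammar T) (K M : ℕ) : Grammar T where
  N := Car G K
  finN := finite_Car G K
  PL := (finite_GoodL G K M).toFinset
  PR := (finite_GoodR G K M).toFinset
  S := ⟨[(Symbol.nonterminal G.S, true)], by simp⟩

variable [Finite T] {K M : ℕ}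

theorem mem_PL {r : Rule T (Car G K)} : r ∈ (propGrammar G K M).PL ↔ GoodL K M r :=
  Set.Finite.mem_toFinset _

theorem mem_PR {r : Rule T (Car G K)} : r ∈ (propGrammar G K M).PR ↔ GoodR K M r :=
  Set.Finite.mem_toFinset _

theorem prop_permitting : (propGrammar G K M).Permitting := by
  rintro r (h | h)
  · exact (mem_PL.mp h).1
  · exact (mem_PR.mp h).1

theorem prop_propagating : (propGrammar G K M).Propagating := by
  rintro r (h | h)
  · exact (mem_PL.mp h).2.1
  · exact (mem_PR.mp h).2.1

theorem prop_sound {s : List (Symbol T (Car G K))} {w : List T}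
    (h : Relation.ReflTransGen (propGrammar G K M).Step s (w.map Symbol.terminal)) :
    ∃ n, MDer G n (dec s) w := by
  induction h using Relation.ReflTransGen.head_induction_on with
  | refl => exact ⟨0, by rw [dec_t]; exact MDer.zero w⟩
  | head hs _ ih =>
    obtain ⟨r, u, v, rfl, rfl, hr⟩ := hs
    obtain ⟨n, hn⟩ := ih
    rcases hr with ⟨h1, h2, -⟩ | ⟨h1, h2, -⟩
    · exact (mem_PL.mp h1).2.2.2 u v w n h2 hn
    · exact (mem_PR.mp h1).2.2.2 u v w n h2 hn

theorem finish (hM : 2 * K + 1 ≤ M) (c : List (Car G K)) :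
    ∀ (w : List T) (α : List (Symbol T (Car G K))), (∀ κ ∈ c, ∃ b ∈ κ.1, b.2 = true) →
      decC c = hat G w → Relation.ReflTransGen (propGrammar G K M).Step
        (α ++ c.map Symbol.nonterminal) (α ++ w.map Symbol.terminal) := by
  induction c with
  | nil =>
    intro w α _ e
    have : w = [] := by simpa [hat] using e.symm
    subst this
    exact Relation.ReflTransGen.refl
  | cons κ c ih =>
    intro w α hl e
    rw [decC_cons, hat] at e
    obtain ⟨w1, w2, rfl, e1, e2⟩ := List.map_eq_append_iff.mp e.symm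
    have := ih w2 (α ++ w1.map Symbol.terminal) (fun κ' h => hl κ' (by simp [h])) e2.symm
    refine Relation.ReflTransGen.head (b := α ++ w1.map Symbol.terminal ++
      c.map Symbol.nonterminal) ⟨⟨κ, w1.map Symbol.terminal, ∅, ∅⟩, α, c.map Symbol.nonterminal,
        by simp, rfl, Or.inl ⟨mem_PL.mpr ⟨rfl, ?_, ?_, ?_⟩, by simp, by simp⟩⟩
      (by simpa using this)
    · obtain ⟨b, hb, -⟩ := hl κ (by simp)
      rw [← e1] at hb
      intro hc
      simp only [List.map_eq_nil_iff] at hc
      simp [hc] at hb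
    · have := κ.2
      rw [← e1] at this
      simp only [List.length_map] at this ⊢
      omega
    · intro α γ w n _ hd
      refine ⟨n, ?_⟩
      simp only [dec_append, dec_t, dec_single] at hd ⊢
      rw [← e1]
      exact hd

variable {B : ℕ}

theorem step_left (hB : ∀ r, r ∈ G.PL ∨ r ∈ G.PR → r.rhs.length ≤ B)
    (hK : ∀ w : List (MS G), Shr B K w) (hM : (2 * K + 1) * (B + 1) ≤ M) {l : Let (MS G)}
    (hl : Valid G l) (hWR : l.WR = ∅) {n : ℕ} {w : List T} (c : List (Car G K)) :
    ∀ (α : List (Car G K)) (p q u : List (MS G)) (R : Set (MS G)),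
      (∀ κ ∈ c, ∃ b ∈ κ.1, b.2 = true) → Par l (ct (decC α)) R (decC c) u →
      MDer G n (p ++ u ++ q) w → ∃ c' : List (Car G K), (∀ κ ∈ c', ∃ b ∈ κ.1, b.2 = true) ∧
        MDer G n (p ++ decC c' ++ q) w ∧ ∀ γ : List (Car G K),
          Relation.ReflTransGen (propGrammar G K M).Step
            ((α ++ c ++ γ).map Symbol.nonterminal) ((α ++ c' ++ γ).map Symbol.nonterminal) := by
  classical
  induction c with
  | nil =>
    intro α p q u R _ hp hd
    rw [decC_nil] at hp
    rw [hp.eq_nil] at hd
    exact ⟨[], by simp, by simpa using hd, fun _ => Relation.ReflTransGen.refl⟩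
  | cons κ c ih =>
    intro α p q u R hlive hp hd
    rw [decC_cons] at hp
    obtain ⟨u1, u2, rfl, p1, p2⟩ := hp.split
    obtain ⟨c2, a1, a2, a3⟩ := ih (α ++ [κ]) (p ++ u1) q u2 R (fun κ' h => hlive κ' (by simp [h]))
      (by simpa using p2) (by simpa using hd)
    have hu1 : ∃ b ∈ u1, b.2 = true := by
      obtain ⟨_, -, -, h, -⟩ := hl
      exact p1.exists_of (p := fun b => b.2 = true) h (hlive κ (by simp))
    obtain ⟨c1, b1, b2, b3, b4, b5⟩ := cut hB hK u1.length u1 le_rfl hu1 p (decC c2 ++ q)
      (by simpa using a2)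
    refine ⟨c1 ++ c2, ?_, by simpa using b5, fun γ => ?_⟩
    · intro κ' h
      rcases List.mem_append.mp h with h | h
      · exact b3 κ' h
      · exact a1 κ' h
    refine Relation.ReflTransGen.tail (b := (α ++ [κ] ++ c2 ++ γ).map Symbol.nonterminal)
      (by simpa using a3 γ) ⟨⟨κ, c1.map Symbol.nonterminal, α.toFinset, ∅⟩,
        α.map Symbol.nonterminal, (c2 ++ γ).map Symbol.nonterminal, by simp, by simp,
        Or.inl ⟨mem_PL.mpr ⟨rfl, by simpa using b1, ?_, ?_⟩, by simp, by simp⟩⟩
    · have h1 := p1.length_le (hl.length_le hB)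
      have h2 := κ.2
      simp only [List.length_map]
      calc c1.length ≤ κ.1.length * (B + 1) := b2.trans h1
        _ ≤ (2 * K + 1) * (B + 1) := Nat.mul_le_mul_right _ h2
        _ ≤ M := hM
    · intro α' γ' w' n' hα hd'
      simp only [dec_append, dec_nt, dec_single] at hd' ⊢
      refine ⟨n' + 1, MDer.cons hl ?_ (b4 _ _ _ _ hd')⟩
      refine Par.append (Par.append (Par.refl _ _ _ _) ?_) (Par.refl _ _ _ _)
      refine p1.change rfl rfl (fun S hS => hS.trans (Set.union_subset_union_left _ ?_))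
        (fun S _ => by simp [hWR])
      intro b hb
      obtain ⟨κ', k1, k2⟩ := List.mem_flatMap.mp hb
      exact Or.inr (mem_dec (hα κ' (by simpa using k1)) k2)

theorem step_right (hB : ∀ r, r ∈ G.PL ∨ r ∈ G.PR → r.rhs.length ≤ B)
    (hK : ∀ w : List (MS G), Shr B K w) (hM : (2 * K + 1) * (B + 1) ≤ M) {l : Let (MS G)}
    (hl : Valid G l) (hWL : l.WL = ∅) {n : ℕ} {w : List T} (c : List (Car G K)) :
    ∀ (γ : List (Car G K)) (p q u : List (MS G)) (L : Set (MS G)),
      (∀ κ ∈ c, ∃ b ∈ κ.1, b.2 = true) → Par l L (ct (decC γ)) (decC c) u →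
      MDer G n (p ++ u ++ q) w → ∃ c' : List (Car G K), (∀ κ ∈ c', ∃ b ∈ κ.1, b.2 = true) ∧
        MDer G n (p ++ decC c' ++ q) w ∧ ∀ α : List (Car G K),
          Relation.ReflTransGen (propGrammar G K M).Step
            ((α ++ c ++ γ).map Symbol.nonterminal) ((α ++ c' ++ γ).map Symbol.nonterminal) := by
  classical
  induction c with
  | nil =>
    intro γ p q u L _ hp hd
    rw [decC_nil] at hp
    rw [hp.eq_nil] at hd
    exact ⟨[], by simp, by simpa using hd, fun _ => Relation.ReflTransGen.refl⟩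
  | cons κ c ih =>
    intro γ p q u L hlive hp hd
    rw [decC_cons] at hp
    obtain ⟨u1, u2, rfl, p1, p2⟩ := hp.split
    have hu1 : ∃ b ∈ u1, b.2 = true := by
      obtain ⟨_, -, -, h, -⟩ := hl
      exact p1.exists_of (p := fun b => b.2 = true) h (hlive κ (by simp))
    obtain ⟨c1, b1, b2, b3, b4, b5⟩ := cut hB hK u1.length u1 le_rfl hu1 p (u2 ++ q)
      (by simpa using hd)
    obtain ⟨c2, a1, a2, a3⟩ := ih γ (p ++ decC c1) q u2 _ (fun κ' h => hlive κ' (by simp [h]))
      p2 (by simpa using b5)
    refine ⟨c1 ++ c2, ?_, by simpa using a2, fun α => ?_⟩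
    · intro κ' h
      rcases List.mem_append.mp h with h | h
      · exact b3 κ' h
      · exact a1 κ' h
    refine Relation.ReflTransGen.head (b := (α ++ c1 ++ c ++ γ).map Symbol.nonterminal)
      ⟨⟨κ, c1.map Symbol.nonterminal, (c ++ γ).toFinset, ∅⟩,
        α.map Symbol.nonterminal, (c ++ γ).map Symbol.nonterminal, by simp, by simp,
        Or.inr ⟨mem_PR.mpr ⟨rfl, by simpa using b1, ?_, ?_⟩, by simp, by simp⟩⟩
      (by simpa using a3 (α ++ c1))
    · have h1 := p1.length_le (hl.length_le hB)
      have h2 := κ.2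
      simp only [List.length_map]
      calc c1.length ≤ κ.1.length * (B + 1) := b2.trans h1
        _ ≤ (2 * K + 1) * (B + 1) := Nat.mul_le_mul_right _ h2
        _ ≤ M := hM
    · intro α' γ' w' n' hγ hd'
      simp only [dec_append, dec_nt, dec_single] at hd' ⊢
      refine ⟨n' + 1, MDer.cons hl ?_ (b4 _ _ _ _ hd')⟩
      refine Par.append (Par.append (Par.refl _ _ _ _) ?_) (Par.refl _ _ _ _)
      refine p1.change rfl rfl (fun S _ => by simp [hWL])
        (fun S hS => hS.trans (Set.union_subset_union_left _ ?_))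
      intro b hb
      have hb' : b ∈ decC (c ++ γ) := by
        rw [decC_append]
        rcases hb with hb | hb
        · exact List.mem_append_right _ hb
        · exact List.mem_append_left _ hb
      obtain ⟨κ', k1, k2⟩ := List.mem_flatMap.mp hb'
      exact Or.inr (mem_dec (hγ κ' (by simpa using k1)) k2)

theorem prop_complete (hB : ∀ r, r ∈ G.PL ∨ r ∈ G.PR → r.rhs.length ≤ B)
    (hK : ∀ w : List (MS G), Shr B K w) (hM : (2 * K + 1) * (B + 1) ≤ M) {w : List T} (n : ℕ) :
    ∀ c : List (Car G K), (∀ κ ∈ c, ∃ b ∈ κ.1, b.2 = true) → MDer G n (decC c) w →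
      Relation.ReflTransGen (propGrammar G K M).Step (c.map Symbol.nonterminal)
        (w.map Symbol.terminal) := by
  induction n with
  | zero =>
    intro c hl hd
    simpa using finish (M := M) (by nlinarith) c w [] hl hd.eq_of_zero
  | succ n ih =>
    intro c hl hd
    obtain ⟨l, v, hv, hp, hd'⟩ := hd.uncons
    have hv' := hv
    obtain ⟨_, -, -, -, -, ⟨-, h, -⟩ | ⟨-, h, -⟩⟩ := hv'
    · obtain ⟨c', a1, a2, a3⟩ := step_left hB hK hM hv h c [] [] [] v ∅ hl (by simpa using hp)
        (by simpa using hd')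
      exact Relation.ReflTransGen.trans (by simpa using a3 []) (ih c' a1 (by simpa using a2))
    · obtain ⟨c', a1, a2, a3⟩ := step_right hB hK hM hv h c [] [] [] v ∅ hl (by simpa using hp)
        (by simpa using hd')
      exact Relation.ReflTransGen.trans (by simpa using a3 []) (ih c' a1 (by simpa using a2))

/-- Erasing rules can be eliminated from one-sided permitting grammars. -/
theorem exists_propagating (G : Grammar T) (hG : G.Permitting) :
    ∃ G' : Grammar T, G'.Permitting ∧ G'.Propagating ∧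
      ∀ w : List T, w ≠ [] → (w ∈ G'.language ↔ w ∈ G.language) := by
  classical
  have := finite_MS G
  obtain ⟨B, hB⟩ : ∃ B, ∀ r, r ∈ G.PL ∨ r ∈ G.PR → r.rhs.length ≤ B :=
    ⟨(G.PL ∪ G.PR).sup (fun r => r.rhs.length), fun r hr =>
      Finset.le_sup (f := fun r : Rule T G.N => r.rhs.length) (Finset.mem_union.mpr hr)⟩
  obtain ⟨K, hK⟩ := shrink (MS G) B
  refine ⟨propGrammar G K ((2 * K + 1) * (B + 1)), prop_permitting, prop_propagating,
    fun w hw => ⟨fun h => ?_, fun h => ?_⟩⟩
  · obtain ⟨n, hn⟩ := prop_sound h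
    exact mder_sound hG hn
  · obtain ⟨u, n, e, hd⟩ := mder_complete h
    obtain ⟨⟨s, b⟩, rfl, e'⟩ := List.map_eq_singleton_iff.mp e
    simp only at e'
    subst e'
    cases b with
    | false => exact absurd (eq_nil_of_dead hd (by simp)) hw
    | true =>
      exact prop_complete hB hK le_rfl n [⟨[(Symbol.nonterminal G.S, true)], by simp⟩] (by simp)
        (by simpa using hd)

end Pool.Agent.Lib.MP_54fa60_lc
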