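import Pool.Agent.Lib.MP_54fa60_lc.Shrink
import Pool.Agent.Lib.MP_54fa60_lc.Defs

set_option autoImplicit false

namespace Pool.Agent.Lib.MP_54fa60_lc

variable {T : Type} {G : Grammar T}

/-- Marked symbols: `true` means live, `false` means that the symbol is to be erased. -/
abbrev MS (G : Grammar T) : Type := Symbol T G.N × Bool

/-- Letters that come from a rule of the grammar. -/
def Valid (G : Grammar T) (l : Let (MS G)) : Prop :=
  ∃ r : Rule T G.N, l.A.1 = Symbol.nonterminal r.lhs ∧ l.x.map Prod.fst = r.rhs ∧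
    (l.A.2 = true → ∃ b ∈ l.x, b.2 = true) ∧ (l.A.2 = false → ∀ b ∈ l.x, b.2 = false) ∧
    ((r ∈ G.PL ∧ l.WR = ∅ ∧ ∀ B ∈ r.perm, ∃ b ∈ l.WL, b.1 = Symbol.nonterminal B) ∨
     (r ∈ G.PR ∧ l.WL = ∅ ∧ ∀ B ∈ r.perm, ∃ b ∈ l.WR, b.1 = Symbol.nonterminal B))

/-- a terminal word as a live marked word -/
def hat (G : Grammar T) (w : List T) : List (MS G) := w.map (fun a => (Symbol.terminal a, true))

/-- marked derivations by `n` parallel steps -/
def MDer (G : Grammar T) (n : ℕ) (u : List (MS G)) (w : List T) : Prop :=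
  ∃ (σ : ℕ → Let (MS G)) (ζ : ℕ → List (MS G)), (∀ t, t < n → Valid G (σ t)) ∧ ζ 0 = u ∧
    Run σ (fun _ => ∅) (fun _ => ∅) 0 n ζ ∧ ζ n = hat G w

theorem MDer.zero (w : List T) : MDer G 0 (hat G w) w :=
  ⟨fun _ => ⟨(Symbol.nonterminal G.S, true), [], ∅, ∅⟩, fun _ => hat G w, by simp, rfl,
    fun _ _ h => absurd h (by simp), rfl⟩

theorem MDer.eq_of_zero {u : List (MS G)} {w : List T} (h : MDer G 0 u w) : u = hat G w := by
  obtain ⟨σ, ζ, -, e, -, e'⟩ := h
  rw [← e, e']

theorem MDer.cons {n : ℕ} {u v : List (MS G)} {w : List T} {l : Let (MS G)} (hl : Valid G l)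
    (hp : Par l ∅ ∅ u v) (h : MDer G n v w) : MDer G (n + 1) u w := by
  obtain ⟨σ, ζ, hv, e, r, e'⟩ := h
  refine ⟨fun t => Nat.casesOn t l σ, fun t => Nat.casesOn t u ζ, ?_, rfl, ?_, e'⟩
  · intro t ht
    cases t with
    | zero => exact hl
    | succ t => exact hv t (by omega)
  · intro t _ ht
    cases t with
    | zero => simpa [e] using hp
    | succ t => exact r t (Nat.zero_le _) (by omega)

theorem MDer.uncons {n : ℕ} {u : List (MS G)} {w : List T} (h : MDer G (n + 1) u w) :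
    ∃ l v, Valid G l ∧ Par l ∅ ∅ u v ∧ MDer G n v w := by
  obtain ⟨σ, ζ, hv, e, r, e'⟩ := h
  exact ⟨σ 0, ζ 1, hv 0 (by omega), e ▸ r 0 le_rfl (by omega), fun t => σ (t + 1),
    fun t => ζ (t + 1), fun t ht => hv _ (by omega), rfl,
    fun t _ ht => r (t + 1) (Nat.zero_le _) (by omega), e'⟩

theorem par_left (hG : G.Permitting) {l : Let (MS G)} {r : Rule T G.N}
    (h1 : l.A.1 = Symbol.nonterminal r.lhs) (h2 : l.x.map Prod.fst = r.rhs) (h3 : r ∈ G.PL)
    (h4 : ∀ B ∈ r.perm, ∃ b ∈ l.WL, b.1 = Symbol.nonterminal B)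
    {L R : Set (MS G)} {z z' : List (MS G)} (h : Par l L R z z') :
    ∀ α γ : List (Symbol T G.N), (∀ b ∈ L, b.1 ∈ α) →
      Relation.ReflTransGen G.Step (α ++ z.map Prod.fst ++ γ) (α ++ z'.map Prod.fst ++ γ) := by
  induction h with
  | nil L R => exact fun _ _ _ => Relation.ReflTransGen.refl
  | @keep L R a z z' _ ih =>
    intro α γ hα
    have := ih (α ++ [a.1]) γ (by
      rintro b (rfl | hb)
      · simp
      · simp [hα b hb])
    simpa using this
  | @rew L R z z' g1 _ _ ih =>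
    intro α γ hα
    have := ih (α ++ [l.A.1]) γ (by
      rintro b (rfl | hb)
      · simp
      · simp [hα b hb])
    refine Relation.ReflTransGen.tail (b := α ++ [l.A.1] ++ z'.map Prod.fst ++ γ)
      (by simpa using this) ⟨r, α, z'.map Prod.fst ++ γ, by simp [h1], by simp [h2],
        Or.inl ⟨h3, fun B hB => ?_, by simp [hG r (Or.inl h3)]⟩⟩
    obtain ⟨b, hb, e⟩ := h4 B hB
    exact e ▸ hα b (g1 hb)

theorem par_right (hG : G.Permitting) {l : Let (MS G)} {r : Rule T G.N}
    (h1 : l.A.1 = Symbol.nonterminal r.lhs) (h2 : l.x.map Prod.fst = r.rhs) (h3 : r ∈ G.PR)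
    (h4 : ∀ B ∈ r.perm, ∃ b ∈ l.WR, b.1 = Symbol.nonterminal B)
    {L R : Set (MS G)} {z z' : List (MS G)} (h : Par l L R z z') :
    ∀ α γ : List (Symbol T G.N), (∀ b ∈ R, b.1 ∈ γ) →
      Relation.ReflTransGen G.Step (α ++ z.map Prod.fst ++ γ) (α ++ z'.map Prod.fst ++ γ) := by
  induction h with
  | nil L R => exact fun _ _ _ => Relation.ReflTransGen.refl
  | @keep L R a z z' _ ih =>
    intro α γ hγ
    simpa using ih (α ++ [a.1]) γ hγ
  | @rew L R z z' _ g2 _ ih =>
    intro α γ hγ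
    have := ih (α ++ l.x.map Prod.fst) γ hγ
    refine Relation.ReflTransGen.head (b := α ++ l.x.map Prod.fst ++ z.map Prod.fst ++ γ)
      ⟨r, α, z.map Prod.fst ++ γ, by simp [h1], by simp [h2],
        Or.inr ⟨h3, fun B hB => ?_, by simp [hG r (Or.inr h3)]⟩⟩ (by simpa using this)
    obtain ⟨b, hb, e⟩ := h4 B hB
    rw [← e]
    rcases g2 hb with g | g
    · exact List.mem_append_right _ (hγ b g)
    · exact List.mem_append_left _ (List.mem_map_of_mem g)

theorem mder_sound (hG : G.Permitting) {n : ℕ} {w : List T} : ∀ {u : List (MS G)},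
    MDer G n u w → Relation.ReflTransGen G.Step (u.map Prod.fst) (w.map Symbol.terminal) := by
  induction n with
  | zero =>
    intro u h
    rw [h.eq_of_zero]
    simp only [hat, List.map_map]
    exact Relation.ReflTransGen.refl
  | succ n ih =>
    intro u h
    obtain ⟨l, v, ⟨r, h1, h2, -, -, h3⟩, hp, hv⟩ := h.uncons
    refine Relation.ReflTransGen.trans ?_ (ih hv)
    rcases h3 with ⟨h3, -, h4⟩ | ⟨h3, -, h4⟩
    · simpa using par_left hG h1 h2 h3 h4 hp [] [] (by simp)
    · simpa using par_right hG h1 h2 h3 h4 hp [] [] (by simp)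

theorem mder_complete {u : List (Symbol T G.N)} {w : List T}
    (h : Relation.ReflTransGen G.Step u (w.map Symbol.terminal)) :
    ∃ (u' : List (MS G)) (n : ℕ), u'.map Prod.fst = u ∧ MDer G n u' w := by
  classical
  induction h using Relation.ReflTransGen.head_induction_on with
  | refl => exact ⟨hat G w, 0, by simp [hat], MDer.zero w⟩
  | head hs _ ih =>
    obtain ⟨r, u1, u2, rfl, rfl, hr⟩ := hs
    obtain ⟨v', n, e, hd⟩ := ih
    obtain ⟨v1, u2', rfl, e1, e2⟩ := List.map_eq_append_iff.mp e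
    obtain ⟨u1', x', rfl, e3, e4⟩ := List.map_eq_append_iff.mp e1
    let a : MS G := (Symbol.nonterminal r.lhs, decide (∃ b ∈ x', b.2 = true))
    have ha1 : a.2 = true → ∃ b ∈ x', b.2 = true := by simp [a]
    have ha2 : a.2 = false → ∀ b ∈ x', b.2 = false := by
      intro h b hb
      simp only [a, decide_eq_false_iff_not, not_exists, not_and] at h
      simpa using h b hb
    refine ⟨u1' ++ [a] ++ u2', n + 1, by simp [e2, e3, a], ?_⟩
    rcases hr with ⟨h1, h2, -⟩ | ⟨h1, h2, -⟩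
    · refine MDer.cons (l := ⟨a, x', ct u1', ∅⟩)
        ⟨r, rfl, e4, ha1, ha2, Or.inl ⟨h1, rfl, fun B hB => ?_⟩⟩ ?_ hd
      · have := h2 B hB
        rw [← e3] at this
        simpa using this
      · refine Par.append (Par.append (Par.refl _ _ _ _) ?_) (Par.refl _ _ _ _)
        exact Par.single (l := ⟨a, x', ct u1', ∅⟩) (by simp) (by simp)
    · refine MDer.cons (l := ⟨a, x', ∅, ct u2'⟩)
        ⟨r, rfl, e4, ha1, ha2, Or.inr ⟨h1, rfl, fun B hB => ?_⟩⟩ ?_ hd
      · have := h2 B hB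
        rw [← e2] at this
        simpa using this
      · refine Par.append (Par.append (Par.refl _ _ _ _) ?_) (Par.refl _ _ _ _)
        exact Par.single (l := ⟨a, x', ∅, ct u2'⟩) (by simp) (by simp)

theorem run_dead {σ : ℕ → Let (MS G)} {L R : ℕ → Set (MS G)} {n : ℕ} {ζ : ℕ → List (MS G)}
    (hv : ∀ t, t < n → Valid G (σ t)) (r : Run σ L R 0 n ζ) (h0 : ∀ b ∈ ζ 0, b.2 = false) :
    ∀ t, t ≤ n → ∀ b ∈ ζ t, b.2 = false := by
  intro t
  induction t with
  | zero => exact fun _ => h0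
  | succ t ih =>
    intro ht
    obtain ⟨_, -, -, -, h, -⟩ := hv t ht
    exact (r t (Nat.zero_le _) ht).forall_of (p := fun b => b.2 = false) h (ih (by omega))

theorem eq_nil_of_dead {n : ℕ} {u : List (MS G)} {w : List T} (h : MDer G n u w)
    (hu : ∀ b ∈ u, b.2 = false) : w = [] := by
  obtain ⟨σ, ζ, hv, e, r, e'⟩ := h
  have := run_dead hv r (e ▸ hu) n le_rfl
  rw [e'] at this
  cases w with
  | nil => rfl
  | cons a w => simpa [hat] using this (Symbol.terminal a, true) (by simp [hat])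

theorem Valid.length_le {B : ℕ} (hB : ∀ r, r ∈ G.PL ∨ r ∈ G.PR → r.rhs.length ≤ B)
    {l : Let (MS G)} (hl : Valid G l) : l.x.length ≤ B := by
  obtain ⟨r, -, h2, -, -, h3⟩ := hl
  have := hB r (by tauto)
  rwa [← h2, List.length_map] at this

theorem MDer.replace {n : ℕ} {p a q : List (MS G)} {w : List T}
    (h : MDer G n (p ++ a ++ q) w) (ha : ∀ b ∈ a, b.2 = false) :
    ∃ (σ : ℕ → Let (MS G)) (L R C : ℕ → Set (MS G)), (∀ t, t < n → Valid G (σ t)) ∧
      Van σ L R C n a ∧ ∀ b, Van σ L R C n b → MDer G n (p ++ b ++ q) w := by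
  obtain ⟨σ, ζ, hv, e, r, e'⟩ := h
  obtain ⟨L, R, C, h1, h2⟩ := r.replace e (fun ζa L' R' ea ra hy => by
    have := run_dead hv ra (ea ▸ ha) n le_rfl
    refine List.eq_nil_iff_forall_not_mem.mpr (fun y hy' => ?_)
    have h1 := this y hy'
    have h2 := hy y hy'
    rw [e'] at h2
    simp only [hat, List.mem_map] at h2
    obtain ⟨c, -, rfl⟩ := h2
    simp at h1)
  refine ⟨σ, L, R, C, hv, h1, fun b hb => ?_⟩
  obtain ⟨ξ, f0, f1, f2, -⟩ := h2 b hb
  exact ⟨σ, ξ, hv, f0, f1, f2.trans e'⟩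

/-- `u` may replace `v` in every successful marked derivation. -/
def MRed (G : Grammar T) (u v : List (MS G)) : Prop :=
  ∀ (p q : List (MS G)) (n : ℕ) (w : List T),
    MDer G n (p ++ v ++ q) w → MDer G n (p ++ u ++ q) w

theorem MRed.trans {a b c : List (MS G)} (h1 : MRed G a b) (h2 : MRed G b c) : MRed G a c :=
  fun _ _ _ _ h => h1 _ _ _ _ (h2 _ _ _ _ h)

theorem MRed.ctx {a b : List (MS G)} (h : MRed G a b) (p q : List (MS G)) :
    MRed G (p ++ a ++ q) (p ++ b ++ q) := by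
  intro p' q' n w hd
  have := h (p' ++ p) (q ++ q') n w (by simpa using hd)
  simpa using this

theorem shrink_dead {B K : ℕ} (hB : ∀ r, r ∈ G.PL ∨ r ∈ G.PR → r.rhs.length ≤ B)
    (hK : ∀ w : List (MS G), Shr B K w) {n : ℕ} {p a q : List (MS G)} {w : List T}
    (h : MDer G n (p ++ a ++ q) w) (ha : ∀ b ∈ a, b.2 = false) :
    ∃ a', a'.length ≤ K ∧ MRed G a a' ∧ MDer G n (p ++ a' ++ q) w := by
  obtain ⟨σ, L, R, C, hv, h1, h2⟩ := h.replace ha
  obtain ⟨a', g1, g2, g3, g4⟩ := hK a σ L R C n (fun t ht => (hv t ht).length_le hB) h1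
  refine ⟨a', g1, fun p' q' n' w' hd => ?_, h2 a' g4⟩
  obtain ⟨σ', L', R', C', -, k1, k2⟩ := hd.replace (fun b hb => ha b (by
    have : b ∈ ct a' := hb
    rwa [g2] at this))
  exact k2 a (g3 _ _ _ _ _ k1)

theorem split_live (u : List (MS G)) (hu : ∃ b ∈ u, b.2 = true) :
    ∃ d s u2, u = d ++ s :: u2 ∧ (∀ b ∈ d, b.2 = false) ∧ s.2 = true := by
  induction u with
  | nil => simp at hu
  | cons a u ih =>
    by_cases ha : a.2 = true
    · exact ⟨[], a, u, rfl, by simp, ha⟩
    · obtain ⟨d, s, u2, e, h1, h2⟩ := ih (by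
        obtain ⟨b, hb, hb'⟩ := hu
        rcases List.mem_cons.mp hb with rfl | hb
        · exact absurd hb' ha
        · exact ⟨b, hb, hb'⟩)
      refine ⟨a :: d, s, u2, by simp [e], ?_, h2⟩
      intro b hb
      rcases List.mem_cons.mp hb with rfl | hb
      · simpa using ha
      · exact h1 b hb

/-- The nonterminals of the propagating grammar: marked words of bounded length. -/
abbrev Car (G : Grammar T) (K : ℕ) : Type := {u : List (MS G) // u.length ≤ 2 * K + 1}

/-- decoding a list of carriers -/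
def decC {K : ℕ} (c : List (Car G K)) : List (MS G) := c.flatMap Subtype.val

@[simp] theorem decC_nil {K : ℕ} : decC ([] : List (Car G K)) = [] := rfl
@[simp] theorem decC_cons {K : ℕ} (κ : Car G K) (c : List (Car G K)) :
    decC (κ :: c) = κ.1 ++ decC c := by simp [decC]
@[simp] theorem decC_append {K : ℕ} (c c' : List (Car G K)) :
    decC (c ++ c') = decC c ++ decC c' := by simp [decC]

theorem cut {B K : ℕ} (hB : ∀ r, r ∈ G.PL ∨ r ∈ G.PR → r.rhs.length ≤ B)
    (hK : ∀ w : List (MS G), Shr B K w) {n : ℕ} {w : List T} (m : ℕ) :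
    ∀ u : List (MS G), u.length ≤ m → (∃ b ∈ u, b.2 = true) → ∀ p q : List (MS G),
      MDer G n (p ++ u ++ q) w → ∃ c : List (Car G K), c ≠ [] ∧ c.length ≤ u.length ∧
        (∀ κ ∈ c, ∃ b ∈ κ.1, b.2 = true) ∧ MRed G u (decC c) ∧
        MDer G n (p ++ decC c ++ q) w := by
  induction m with
  | zero =>
    intro u hu ⟨b, hb, _⟩
    rw [List.length_eq_zero_iff.mp (Nat.le_zero.mp hu)] at hb
    simp at hb
  | succ m ih =>
    intro u hu hl p q hd
    obtain ⟨d, s, u2, rfl, h1, h2⟩ := split_live u hl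
    obtain ⟨d', g1, g2, g3⟩ := shrink_dead hB hK (p := p) (a := d) (q := s :: u2 ++ q)
      (by simpa using hd) h1
    have r1 : MRed G (d ++ s :: u2) (d' ++ s :: u2) := by simpa using g2.ctx [] (s :: u2)
    by_cases hl2 : ∃ b ∈ u2, b.2 = true
    · obtain ⟨c, c1, c2, c3, c4, c5⟩ := ih u2 (by simp at hu; omega) hl2 (p ++ d' ++ [s]) q
        (by simpa using g3)
      refine ⟨⟨d' ++ [s], by simp; omega⟩ :: c, by simp, by simp; omega, ?_, ?_, by simpa using c5⟩
      · intro κ hκ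
        rcases List.mem_cons.mp hκ with rfl | hκ
        · exact ⟨s, by simp, h2⟩
        · exact c3 κ hκ
      · refine r1.trans ?_
        simpa using c4.ctx (d' ++ [s]) []
    · obtain ⟨e', k1, k2, k3⟩ := shrink_dead hB hK (p := p ++ d' ++ [s]) (a := u2) (q := q)
        (by simpa using g3) (fun b hb => by
          by_contra hc
          exact hl2 ⟨b, hb, by simpa using hc⟩)
      refine ⟨[⟨d' ++ s :: e', by simp; omega⟩], by simp, by simp; omega, ?_, ?_,
        by simpa using k3⟩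
      · intro κ hκ
        rw [List.mem_singleton.mp hκ]
        exact ⟨s, by simp, h2⟩
      · refine r1.trans ?_
        simpa using k2.ctx (d' ++ [s]) []

end Pool.Agent.Lib.MP_54fa60_lc
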