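import Mathlib

set_option autoImplicit false

namespace Pool.Agent.Lib.MP_54fa60_lc

variable {X : Type}

/-- An abstract rewriting letter: rewrite `A` to `x` if `WL` occurs on the left and `WR` on the right. -/
structure Let (X : Type) where
  A : X
  x : List X
  WL : Set X
  WR : Set X

/-- the set of symbols of a word -/
def ct (z : List X) : Set X := {a | a ∈ z}

@[simp] theorem mem_ct {z : List X} {a : X} : a ∈ ct z ↔ a ∈ z := Iff.rfl
@[simp] theorem ct_nil : ct ([] : List X) = ∅ := by ext; simp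
@[simp] theorem ct_append (u v : List X) : ct (u ++ v) = ct u ∪ ct v := by ext; simp
@[simp] theorem ct_cons (a : X) (v : List X) : ct (a :: v) = insert a (ct v) := by ext; simp
@[simp] theorem ct_reverse (v : List X) : ct v.reverse = ct v := by ext; simp

/-- One parallel step: some occurrences of `l.A` are rewritten; `L`, `R` are the outer contexts. -/
inductive Par (l : Let X) : Set X → Set X → List X → List X → Prop
  | nil (L R : Set X) : Par l L R [] []
  | keep {L R : Set X} {a : X} {z z' : List X} :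
      Par l (insert a L) R z z' → Par l L R (a :: z) (a :: z')
  | rew {L R : Set X} {z z' : List X} :
      l.WL ⊆ L → l.WR ⊆ R ∪ ct z → Par l (insert l.A L) R z z' →
        Par l L R (l.A :: z) (l.x ++ z')

theorem Par.change {l l' : Let X} {L R L' R' : Set X} {z z' : List X} (h : Par l L R z z')
    (hA : l'.A = l.A) (hx : l'.x = l.x)
    (hL : ∀ S : Set X, l.WL ⊆ L ∪ S → l'.WL ⊆ L' ∪ S)
    (hR : ∀ S : Set X, l.WR ⊆ R ∪ S → l'.WR ⊆ R' ∪ S) : Par l' L' R' z z' := by
  induction h generalizing L' with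
  | nil L R => exact Par.nil _ _
  | @keep L R a z z' _ ih =>
    refine Par.keep (ih ?_ hR)
    intro S hS
    have := hL (insert a S) (by rwa [Set.union_insert, ← Set.insert_union])
    rwa [Set.union_insert, ← Set.insert_union] at this
  | @rew L R z z' h1 h2 _ ih =>
    rw [← hA, ← hx]
    refine Par.rew ?_ (hR _ h2) ?_
    · simpa using hL ∅ (by simpa using h1)
    · rw [hA]
      refine ih ?_ hR
      intro S hS
      have := hL (insert l.A S) (by rwa [Set.union_insert, ← Set.insert_union])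
      rwa [Set.union_insert, ← Set.insert_union] at this

theorem Par.mono {l : Let X} {L R L' R' : Set X} {z z' : List X} (h : Par l L R z z')
    (hL : L ⊆ L') (hR : R ⊆ R') : Par l L' R' z z' :=
  h.change rfl rfl (fun _ hS => hS.trans (Set.union_subset_union_left _ hL))
    (fun _ hS => hS.trans (Set.union_subset_union_left _ hR))

theorem Par.refl (l : Let X) (L R : Set X) (z : List X) : Par l L R z z := by
  induction z generalizing L with
  | nil => exact Par.nil _ _
  | cons a z ih => exact Par.keep (ih _)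

theorem Par.append {l : Let X} {L R : Set X} {u u' v v' : List X}
    (h1 : Par l L (R ∪ ct v) u u') (h2 : Par l (L ∪ ct u) R v v') :
    Par l L R (u ++ v) (u' ++ v') := by
  generalize hR : R ∪ ct v = R0 at h1
  induction h1 with
  | nil L R0 => simpa using h2
  | @keep L R0 a z z' _ ih =>
    refine Par.keep (ih ?_ hR)
    rwa [ct_cons, Set.union_insert, ← Set.insert_union] at h2
  | @rew L R0 z z' g1 g2 _ ih =>
    rw [List.append_assoc, List.cons_append]
    refine Par.rew g1 ?_ (ih ?_ hR)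
    · rw [← hR] at g2
      rw [ct_append]
      intro b hb
      rcases g2 hb with (h | h) | h
      · exact Or.inl h
      · exact Or.inr (Or.inr h)
      · exact Or.inr (Or.inl h)
    · rwa [ct_cons, Set.union_insert, ← Set.insert_union] at h2

theorem Par.eq_nil {l : Let X} {L R : Set X} {z' : List X} (h : Par l L R [] z') : z' = [] := by
  cases h; rfl

theorem Par.split {l : Let X} {L R : Set X} {u v w : List X} (h : Par l L R (u ++ v) w) :
    ∃ u' v', w = u' ++ v' ∧ Par l L (R ∪ ct v) u u' ∧ Par l (L ∪ ct u) R v v' := by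
  induction u generalizing L w with
  | nil => exact ⟨[], w, rfl, Par.nil _ _, by simpa using h⟩
  | cons a u ih =>
    rw [List.cons_append] at h
    generalize hz : u ++ v = z at h
    cases h with
    | @keep _ _ _ _ z' h =>
      subst hz
      obtain ⟨u', v', rfl, h1, h2⟩ := ih h
      refine ⟨a :: u', v', rfl, Par.keep h1, ?_⟩
      rwa [ct_cons, Set.union_insert, ← Set.insert_union]
    | @rew _ _ _ z' g1 g2 h =>
      subst hz
      obtain ⟨u', v', rfl, h1, h2⟩ := ih h
      refine ⟨l.x ++ u', v', by simp, Par.rew g1 ?_ h1, ?_⟩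
      · rw [ct_append] at g2
        intro b hb
        rcases g2 hb with h | h | h
        · exact Or.inl (Or.inl h)
        · exact Or.inr h
        · exact Or.inl (Or.inr h)
      · rwa [ct_cons, Set.union_insert, ← Set.insert_union]

theorem Par.single {l : Let X} {L R : Set X} (h1 : l.WL ⊆ L) (h2 : l.WR ⊆ R) :
    Par l L R [l.A] l.x := by
  have := Par.rew (l := l) (L := L) (R := R) (z := []) (z' := []) h1 (by simpa using h2)
    (Par.nil _ _)
  simpa using this

/-- the mirror image of a letter -/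
def Let.rev (l : Let X) : Let X := ⟨l.A, l.x.reverse, l.WR, l.WL⟩

theorem Par.reverse {l : Let X} {L R : Set X} {z z' : List X} (h : Par l L R z z') :
    Par l.rev R L z.reverse z'.reverse := by
  induction h with
  | nil L R => exact Par.nil _ _
  | @keep L R a z z' _ ih =>
    rw [List.reverse_cons, List.reverse_cons]
    refine Par.append (ih.mono le_rfl ?_) (Par.refl _ _ _ _)
    intro b hb; simp at hb ⊢; tauto
  | @rew L R z z' g1 g2 _ ih =>
    rw [List.reverse_cons, List.reverse_append]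
    refine Par.append (ih.mono le_rfl ?_) ?_
    · intro b hb; simp at hb ⊢; tauto
    · exact Par.single (l := l.rev) (by simpa [Let.rev] using g2) g1

theorem Par.eq_of_not {l : Let X} {L R : Set X} {z z' : List X} (h : Par l L R z z')
    (hn : ¬ l.WR ⊆ R ∪ ct z) : z' = z := by
  induction h with
  | nil L R => rfl
  | @keep L R a z z' _ ih =>
    rw [ih]
    intro h
    exact hn (h.trans (Set.union_subset_union_right _ (by simp)))
  | @rew L R z z' g1 g2 _ ih =>
    exact absurd (g2.trans (Set.union_subset_union_right _ (by simp))) hn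

theorem Par.eq_of_id {l : Let X} {L R : Set X} {z z' : List X} (h : Par l L R z z')
    (hx : l.x = [l.A]) : z' = z := by
  induction h with
  | nil L R => rfl
  | keep _ ih => rw [ih]
  | rew _ _ _ ih => rw [ih, hx]; rfl

theorem Par.new {l : Let X} {L R : Set X} {z z' : List X} (h : Par l L R z z') {Y : X}
    (h1 : Y ∈ z') (h2 : Y ∉ z) :
    Y ∈ l.x ∧ l.A ∈ z ∧ l.WL ⊆ L ∪ ct z ∧ ct l.x ⊆ ct z' := by
  induction h with
  | nil L R => simp at h1
  | @keep L R a z z' _ ih =>
    simp only [List.mem_cons, not_or] at h1 h2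
    obtain ⟨g1, g2, g3, g4⟩ := ih (h1.resolve_left h2.1) h2.2
    refine ⟨g1, List.mem_cons_of_mem _ g2, ?_, g4.trans (by simp)⟩
    rwa [ct_cons, Set.union_insert, ← Set.insert_union]
  | @rew L R z z' g1 g2 _ ih =>
    simp only [List.mem_cons, not_or, List.mem_append] at h1 h2
    refine ⟨?_, by simp, g1.trans Set.subset_union_left, by simp⟩
    rcases h1 with h1 | h1
    · exact h1
    · exact (ih h1 h2.2).1

theorem Par.gone {l : Let X} {L R : Set X} {z z' : List X} (h : Par l L R z z') {Y : X}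
    (h1 : Y ∈ z) (h2 : Y ∉ z') :
    l.A = Y ∧ l.WL ⊆ L ∪ (ct z \ {Y}) ∧ ct l.x ⊆ ct z' := by
  induction h with
  | nil L R => simp at h1
  | @keep L R a z z' _ ih =>
    simp only [List.mem_cons, not_or] at h1 h2
    obtain ⟨g1, g3, g4⟩ := ih (h1.resolve_left h2.1) h2.2
    refine ⟨g1, ?_, g4.trans (by simp)⟩
    intro b hb
    rcases g3 hb with (h | h) | h
    · right
      refine ⟨by simp [h], ?_⟩
      rw [h]; exact fun e => h2.1 (Set.mem_singleton_iff.mp e).symm
    · exact Or.inl h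
    · exact Or.inr ⟨by simp; exact Or.inr h.1, h.2⟩
  | @rew L R z z' g1 g2 _ ih =>
    simp only [List.mem_cons, not_or, List.mem_append] at h1 h2
    refine ⟨?_, g1.trans Set.subset_union_left, by simp⟩
    rcases h1 with h1 | h1
    · exact h1.symm
    · exact (ih h1 h2.2).1

theorem Par.length_le {l : Let X} {L R : Set X} {z z' : List X} (h : Par l L R z z') {B : ℕ}
    (hB : l.x.length ≤ B) : z'.length ≤ z.length * (B + 1) := by
  induction h with
  | nil L R => simp
  | keep _ ih => simp only [List.length_cons]; nlinarith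
  | rew _ _ _ ih => simp only [List.length_cons, List.length_append]; nlinarith

theorem Par.forall_of {l : Let X} {L R : Set X} {z z' : List X} (h : Par l L R z z')
    {p : X → Prop} (hp : p l.A → ∀ b ∈ l.x, p b) (hz : ∀ b ∈ z, p b) : ∀ b ∈ z', p b := by
  induction h with
  | nil L R => simp
  | keep _ ih =>
    simp only [List.mem_cons, forall_eq_or_imp] at hz ⊢
    exact ⟨hz.1, ih hz.2⟩
  | rew _ _ _ ih =>
    simp only [List.mem_cons, forall_eq_or_imp, List.mem_append] at hz ⊢
    rintro b (hb | hb)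
    · exact hp hz.1 b hb
    · exact ih hz.2 b hb

theorem Par.exists_of {l : Let X} {L R : Set X} {z z' : List X} (h : Par l L R z z')
    {p : X → Prop} (hp : p l.A → ∃ b ∈ l.x, p b) (hz : ∃ b ∈ z, p b) : ∃ b ∈ z', p b := by
  induction h with
  | nil L R => simp at hz
  | keep _ ih =>
    simp only [List.mem_cons, exists_eq_or_imp] at hz ⊢
    rcases hz with hz | hz
    · exact Or.inl hz
    · exact Or.inr (ih hz)
  | rew _ _ _ ih =>
    simp only [List.mem_cons, exists_eq_or_imp] at hz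
    rcases hz with hz | hz
    · obtain ⟨b, hb, hpb⟩ := hp hz
      exact ⟨b, List.mem_append_left _ hb, hpb⟩
    · obtain ⟨b, hb, hpb⟩ := ih hz
      exact ⟨b, List.mem_append_right _ hb, hpb⟩

/-- A run from time `t0` to time `T` along the schedule `σ` with outer contexts `L`, `R`. -/
def Run (σ : ℕ → Let X) (L R : ℕ → Set X) (t0 T : ℕ) (ζ : ℕ → List X) : Prop :=
  ∀ t, t0 ≤ t → t < T → Par (σ t) (L t) (R t) (ζ t) (ζ (t + 1))

theorem Run.mono {σ : ℕ → Let X} {L R L' R' : ℕ → Set X} {t0 T : ℕ} {ζ : ℕ → List X}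
    (h : Run σ L R t0 T ζ) (hL : ∀ t, t0 ≤ t → t < T → L t ⊆ L' t)
    (hR : ∀ t, t0 ≤ t → t < T → R t ⊆ R' t) : Run σ L' R' t0 T ζ :=
  fun t h1 h2 => (h t h1 h2).mono (hL t h1 h2) (hR t h1 h2)

theorem Run.later {σ : ℕ → Let X} {L R : ℕ → Set X} {t0 t1 T : ℕ} {ζ : ℕ → List X}
    (h : Run σ L R t0 T ζ) (h01 : t0 ≤ t1) : Run σ L R t1 T ζ :=
  fun t h1 h2 => h t (h01.trans h1) h2

theorem Run.append {σ : ℕ → Let X} {L R : ℕ → Set X} {t0 T : ℕ} {ζ ξ : ℕ → List X}
    (h1 : Run σ L (fun t => R t ∪ ct (ξ t)) t0 T ζ)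
    (h2 : Run σ (fun t => L t ∪ ct (ζ t)) R t0 T ξ) :
    Run σ L R t0 T (fun t => ζ t ++ ξ t) :=
  fun t g1 g2 => (h1 t g1 g2).append (h2 t g1 g2)

theorem Run.nil (σ : ℕ → Let X) (L R : ℕ → Set X) (t0 T : ℕ) :
    Run σ L R t0 T (fun _ => []) := fun _ _ _ => Par.nil _ _

theorem Run.eq_nil {σ : ℕ → Let X} {L R : ℕ → Set X} {t0 T : ℕ} {ζ : ℕ → List X}
    (h : Run σ L R t0 T ζ) (h0 : ζ t0 = []) : ∀ t, t0 ≤ t → t ≤ T → ζ t = [] := by
  intro t ht
  induction t, ht using Nat.le_induction with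
  | base => exact fun _ => h0
  | succ t ht ih =>
    intro hT
    have := h t ht hT
    rw [ih (by omega)] at this
    exact this.eq_nil

theorem exists_seq {α : Type} (I : ℕ → α → Prop) (Q : ℕ → α → α → Prop) (t0 T : ℕ) (a0 : α)
    (h0 : I t0 a0) (hs : ∀ t a, t0 ≤ t → t < T → I t a → ∃ b, I (t + 1) b ∧ Q t a b) :
    ∃ f : ℕ → α, f t0 = a0 ∧ (∀ t, t0 ≤ t → t ≤ T → I t (f t)) ∧
      ∀ t, t0 ≤ t → t < T → Q t (f t) (f (t + 1)) := by
  by_cases hT : t0 ≤ T
  swap
  · exact ⟨fun _ => a0, rfl, fun t h1 h2 => by omega, fun t h1 h2 => by omega⟩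
  induction T, hT using Nat.le_induction with
  | base =>
    refine ⟨fun _ => a0, rfl, fun t h1 h2 => ?_, fun t h1 h2 => by omega⟩
    obtain rfl : t = t0 := by omega
    exact h0
  | succ T hT ih =>
    obtain ⟨f, f0, f1, f2⟩ := ih (fun t a g1 g2 => hs t a g1 (by omega))
    obtain ⟨b, b1, b2⟩ := hs T (f T) hT (by omega) (f1 T hT le_rfl)
    refine ⟨Function.update f (T + 1) b, ?_, ?_, ?_⟩
    · rw [Function.update_of_ne (by omega), f0]
    · intro t g1 g2
      by_cases e : t = T + 1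
      · subst e; simpa using b1
      · rw [Function.update_of_ne e]; exact f1 t g1 (by omega)
    · intro t g1 g2
      by_cases e : t = T
      · subst e
        rw [Function.update_of_ne (by omega), Function.update_self]; exact b2
      · rw [Function.update_of_ne (by omega), Function.update_of_ne (by omega)]
        exact f2 t g1 (by omega)

theorem Run.split {σ : ℕ → Let X} {L R : ℕ → Set X} {t0 T : ℕ} {ζ : ℕ → List X}
    (h : Run σ L R t0 T ζ) {u v : List X} (h0 : ζ t0 = u ++ v) :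
    ∃ ζ1 ζ2 : ℕ → List X, ζ1 t0 = u ∧ ζ2 t0 = v ∧ (∀ t, t0 ≤ t → t ≤ T → ζ t = ζ1 t ++ ζ2 t) ∧
      Run σ L (fun t => R t ∪ ct (ζ2 t)) t0 T ζ1 ∧
      Run σ (fun t => L t ∪ ct (ζ1 t)) R t0 T ζ2 := by
  obtain ⟨f, f0, f1, f2⟩ := exists_seq (α := List X × List X) (fun t a => ζ t = a.1 ++ a.2)
    (fun t a b => Par (σ t) (L t) (R t ∪ ct a.2) a.1 b.1 ∧ Par (σ t) (L t ∪ ct a.1) (R t) a.2 b.2)
    t0 T (u, v) h0 (by
      intro t a g1 g2 g3
      have := h t g1 g2
      rw [g3] at this
      obtain ⟨u', v', e, p1, p2⟩ := this.split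
      exact ⟨(u', v'), e, p1, p2⟩)
  exact ⟨fun t => (f t).1, fun t => (f t).2, by simp [f0], by simp [f0], f1,
    fun t g1 g2 => (f2 t g1 g2).1, fun t g1 g2 => (f2 t g1 g2).2⟩

/-- Split a run in three parts; the middle part can be replaced by any run covering it. -/
theorem Run.split3 {σ : ℕ → Let X} {L R : ℕ → Set X} {t0 T : ℕ} {ζ : ℕ → List X}
    (h : Run σ L R t0 T ζ) {p a q : List X} (h0 : ζ t0 = p ++ a ++ q) :
    ∃ ζp ζa ζq : ℕ → List X, ζp t0 = p ∧ ζa t0 = a ∧ ζq t0 = q ∧
      (∀ t, t0 ≤ t → t ≤ T → ζ t = ζp t ++ ζa t ++ ζq t) ∧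
      Run σ L (fun t => R t ∪ ct (ζa t) ∪ ct (ζq t)) t0 T ζp ∧
      Run σ (fun t => L t ∪ ct (ζp t)) (fun t => R t ∪ ct (ζq t)) t0 T ζa ∧
      Run σ (fun t => L t ∪ ct (ζp t) ∪ ct (ζa t)) R t0 T ζq := by
  obtain ⟨ζ1, ζq, e1, eq, e, r1, rq⟩ := h.split h0
  obtain ⟨ζp, ζa, ep, ea, e', rp, ra⟩ := r1.split e1
  refine ⟨ζp, ζa, ζq, ep, ea, eq, fun t g1 g2 => by rw [e t g1 g2, e' t g1 g2], ?_, ra, ?_⟩
  · refine rp.mono (fun _ _ _ => le_rfl) (fun t _ _ => ?_)
    intro b hb; simp at hb ⊢; tauto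
  · refine rq.mono (fun t g1 g2 => ?_) (fun _ _ _ => le_rfl)
    rw [e' t g1 g2.le]
    intro b hb; simp at hb ⊢; tauto

theorem Run.append3 {σ : ℕ → Let X} {L R : ℕ → Set X} {t0 T : ℕ} {ζp ζa ζq : ℕ → List X}
    (rp : Run σ L (fun t => R t ∪ ct (ζa t) ∪ ct (ζq t)) t0 T ζp)
    (ra : Run σ (fun t => L t ∪ ct (ζp t)) (fun t => R t ∪ ct (ζq t)) t0 T ζa)
    (rq : Run σ (fun t => L t ∪ ct (ζp t) ∪ ct (ζa t)) R t0 T ζq) :
    Run σ L R t0 T (fun t => ζp t ++ ζa t ++ ζq t) := by
  refine Run.append (ζ := fun t => ζp t ++ ζa t) (Run.append ?_ ra) ?_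
  · refine rp.mono (fun _ _ _ => le_rfl) (fun t _ _ => ?_)
    intro b hb; simp at hb ⊢; tauto
  · refine rq.mono (fun t g1 g2 => ?_) (fun _ _ _ => le_rfl)
    intro b hb; simp at hb ⊢; tauto

/-- Glue two runs in time. -/
theorem Run.glue {σ : ℕ → Let X} {L R : ℕ → Set X} {t0 t1 T : ℕ} {ζ ξ : ℕ → List X}
    (h1 : Run σ L R t0 t1 ζ) (h2 : Run σ L R t1 T ξ) (e : ζ t1 = ξ t1) :
    Run σ L R t0 T (fun t => if t ≤ t1 then ζ t else ξ t) := by
  intro t g1 g2
  by_cases c : t < t1
  · simp only [if_pos c.le, if_pos (show t + 1 ≤ t1 from c)]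
    exact h1 t g1 c
  · have c1 : ¬ t + 1 ≤ t1 := c
    simp only [if_neg c1]
    by_cases c2 : t ≤ t1
    · obtain rfl : t = t1 := by omega
      simp only [le_refl, if_true, e]
      exact h2 t le_rfl g2
    · simp only [if_neg c2]
      exact h2 t (by omega) g2

theorem Run.reverse {σ : ℕ → Let X} {L R : ℕ → Set X} {t0 T : ℕ} {ζ : ℕ → List X}
    (h : Run σ L R t0 T ζ) : Run (fun t => (σ t).rev) R L t0 T (fun t => (ζ t).reverse) :=
  fun t g1 g2 => (h t g1 g2).reverse

end Pool.Agent.Lib.MP_54fa60_lc
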