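import Pool.Agent.Lib.MP_54fa60_lc.Stab

set_option autoImplicit false

namespace Pool.Agent.Lib.MP_54fa60_lc

variable {X : Type}

theorem left_block' (X : Type) [Finite X] (B : ℕ) :
    ∃ K : ℕ, ∀ (σ : ℕ → Let X) (L R : ℕ → Set X) (T : ℕ) (ζ : ℕ → List X),
      (∀ t, t < T → (σ t).x.length ≤ B) → Run σ L R 0 T ζ → ζ T = [] →
      ∃ η : ℕ → List X, Run σ L (fun t => R t ∪ ct (ζ t)) 0 T η ∧ η T = [] ∧ (η 0).length ≤ K ∧
        ct (η 0) ⊆ ct (ζ 0) ∧ ∀ t, t < T → ct (ζ t) ⊆ ct (η t) := by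
  classical
  have : Finite {l : List X // l.length ≤ B + 1} := List.finite_length_le X (B + 1)
  obtain ⟨K, hK⟩ := left_block X (X × {l : List X // l.length ≤ B + 1} × Set X)
  refine ⟨K, fun σ L R T ζ hB r hT => ?_⟩
  let σ' : ℕ → Let X := fun t =>
    if (σ t).WR ⊆ R t ∪ ct (ζ t) then ⟨(σ t).A, (σ t).x, (σ t).WL \ L t, ∅⟩
    else ⟨(σ t).A, [(σ t).A], ∅, ∅⟩
  have hlen : ∀ t, t < T → (σ' t).x.length ≤ B + 1 := by
    intro t ht
    simp only [σ']
    split_ifs
    · exact (hB t ht).trans (Nat.le_succ _)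
    · simp
  have hWR : ∀ t, (σ' t).WR = ∅ := by
    intro t
    simp only [σ']
    split_ifs <;> rfl
  obtain ⟨η, r', h1, h2, h3⟩ := hK σ' T
    (fun t => ((σ' t).A, ⟨(σ' t).x.take (B + 1), by simp⟩, (σ' t).WL)) ζ (by
      intro s t hs ht e
      simp only [Prod.mk.injEq, Subtype.mk.injEq] at e
      rw [List.take_of_length_le (hlen s hs), List.take_of_length_le (hlen t ht)] at e
      have e4 : (σ' s).WR = (σ' t).WR := by rw [hWR, hWR]
      obtain ⟨e1, e2, e3⟩ := e
      cases hs' : σ' s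
      cases ht' : σ' t
      simp_all) (by
      refine ⟨fun t g1 g2 => ?_, hT⟩
      by_cases c : (σ t).WR ⊆ R t ∪ ct (ζ t)
      · refine (r t g1 g2).change (by simp [σ', c]) (by simp [σ', c]) (fun S hS => ?_)
          (fun S _ => by simp)
        simp only [σ', if_pos c]
        intro b hb
        rcases hS hb.1 with h | h
        · exact absurd h hb.2
        · exact Or.inr h
      · rw [(r t g1 g2).eq_of_not c]
        exact Par.refl _ _ _ _)
  refine ⟨η, fun t g1 g2 => ?_, r'.2, h1, h2, h3⟩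
  by_cases c : (σ t).WR ⊆ R t ∪ ct (ζ t)
  · refine (r'.1 t g1 g2).change (by simp [σ', c]) (by simp [σ', c]) (fun S hS => ?_)
      (fun S _ => c.trans Set.subset_union_left)
    simp only [σ', if_pos c] at hS
    intro b hb
    by_cases hbL : b ∈ L t
    · exact Or.inl hbL
    · exact Or.inr (by simpa using hS ⟨hb, hbL⟩)
  · rw [(r'.1 t g1 g2).eq_of_id (by simp [σ', c])]
    exact Par.refl _ _ _ _

theorem right_block' (X : Type) [Finite X] (B : ℕ) :
    ∃ K : ℕ, ∀ (σ : ℕ → Let X) (L R : ℕ → Set X) (T : ℕ) (ζ : ℕ → List X),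
      (∀ t, t < T → (σ t).x.length ≤ B) → Run σ L R 0 T ζ → ζ T = [] →
      ∃ η : ℕ → List X, Run σ (fun t => L t ∪ ct (ζ t)) R 0 T η ∧ η T = [] ∧ (η 0).length ≤ K ∧
        ct (η 0) ⊆ ct (ζ 0) ∧ ∀ t, t < T → ct (ζ t) ⊆ ct (η t) := by
  obtain ⟨K, hK⟩ := left_block' X B
  refine ⟨K, fun σ L R T ζ hB r hT => ?_⟩
  obtain ⟨η, r', h0, h1, h2, h3⟩ := hK (fun t => (σ t).rev) R L T (fun t => (ζ t).reverse)
    (fun t ht => by simpa [Let.rev] using hB t ht) r.reverse (by simp [hT])
  refine ⟨fun t => (η t).reverse, ?_, by simp [h0], by simpa using h1, by simpa using h2,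
    fun t ht => by simpa using h3 t ht⟩
  have := r'.reverse
  simpa [Let.rev] using this

/-- The word `z` can vanish along the schedule, covering `C`. -/
def Van (σ : ℕ → Let X) (L R C : ℕ → Set X) (T : ℕ) (z : List X) : Prop :=
  ∃ ζ : ℕ → List X, ζ 0 = z ∧ Run σ L R 0 T ζ ∧ ζ T = [] ∧ ∀ t, t < T → C t ⊆ ct (ζ t)

/-- `z` can mimic `z'`. -/
def Red (z z' : List X) : Prop :=
  ∀ (σ : ℕ → Let X) (L R C : ℕ → Set X) (T : ℕ), Van σ L R C T z' → Van σ L R C T z

theorem Red.refl (z : List X) : Red z z := fun _ _ _ _ _ h => h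

theorem Red.trans {a b c : List X} (h1 : Red a b) (h2 : Red b c) : Red a c :=
  fun _ _ _ _ _ h => h1 _ _ _ _ _ (h2 _ _ _ _ _ h)

/-- General replacement: a factor that vanishes can be replaced by one that covers it. -/
theorem Run.replace {σ : ℕ → Let X} {L R : ℕ → Set X} {T : ℕ} {ζ : ℕ → List X}
    (r : Run σ L R 0 T ζ) {p a q : List X} (e : ζ 0 = p ++ a ++ q)
    (hv : ∀ ζa : ℕ → List X, ∀ L' R' : ℕ → Set X, ζa 0 = a → Run σ L' R' 0 T ζa →
      (∀ y ∈ ζa T, y ∈ ζ T) → ζa T = []) :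
    ∃ L' R' C' : ℕ → Set X, Van σ L' R' C' T a ∧ ∀ b, Van σ L' R' C' T b →
      ∃ ξ : ℕ → List X, ξ 0 = p ++ b ++ q ∧ Run σ L R 0 T ξ ∧ ξ T = ζ T ∧
        ∀ t, t < T → ct (ζ t) ⊆ ct (ξ t) := by
  obtain ⟨ζp, ζa, ζq, ep, ea, eq, es, rp, ra, rq⟩ := r.split3 e
  have hT := es T (Nat.zero_le _) le_rfl
  have haT : ζa T = [] := hv ζa _ _ ea ra (fun y hy => by rw [hT]; simp [hy])
  refine ⟨_, _, fun t => ct (ζa t), ⟨ζa, ea, ra, haT, fun _ _ => le_rfl⟩, ?_⟩
  rintro b ⟨ξ, e0, rb, hbT, hc⟩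
  refine ⟨fun t => ζp t ++ ξ t ++ ζq t, by simp [ep, e0, eq], Run.append3 ?_ rb ?_,
    by simp [hT, haT, hbT], fun t ht => ?_⟩
  · refine rp.mono (fun _ _ _ => le_rfl) (fun t _ ht => ?_)
    exact Set.union_subset_union_left _ (Set.union_subset_union_right _ (hc t ht))
  · refine rq.mono (fun t _ ht => ?_) (fun _ _ _ => le_rfl)
    exact Set.union_subset_union_right _ (hc t ht)
  · rw [es t (Nat.zero_le _) ht.le]
    simp only [ct_append]
    exact Set.union_subset_union_left _ (Set.union_subset_union_right _ (hc t ht))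

theorem Van.replace {σ : ℕ → Let X} {L R C : ℕ → Set X} {T : ℕ} {p a q : List X}
    (h : Van σ L R C T (p ++ a ++ q)) :
    ∃ L' R' C' : ℕ → Set X, Van σ L' R' C' T a ∧ ∀ b, Van σ L' R' C' T b →
      Van σ L R C T (p ++ b ++ q) := by
  obtain ⟨ζ, e, r, hT, hc⟩ := h
  obtain ⟨L', R', C', h1, h2⟩ := r.replace e (fun ζa _ _ _ _ hy => by
    rw [hT] at hy
    exact List.eq_nil_iff_forall_not_mem.mpr (fun y hy' => by simpa using hy y hy'))
  refine ⟨L', R', C', h1, fun b hb => ?_⟩
  obtain ⟨ξ, e0, r0, h0, hc0⟩ := h2 b hb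
  exact ⟨ξ, e0, r0, h0.trans hT, fun t ht => (hc t ht).trans (hc0 t ht)⟩

theorem Red.ctx {a b : List X} (h : Red a b) (p q : List X) :
    Red (p ++ a ++ q) (p ++ b ++ q) := by
  intro σ L R C T hv
  obtain ⟨L', R', C', h1, h2⟩ := hv.replace
  exact h2 a (h _ _ _ _ _ h1)

theorem Van.mono {σ : ℕ → Let X} {L R C L' R' C' : ℕ → Set X} {T : ℕ} {z : List X}
    (h : Van σ L R C T z) (hL : ∀ t, t < T → L t ⊆ L' t) (hR : ∀ t, t < T → R t ⊆ R' t)
    (hC : ∀ t, t < T → C' t ⊆ C t) : Van σ L' R' C' T z := by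
  obtain ⟨ζ, e, r, hT, hc⟩ := h
  exact ⟨ζ, e, r.mono (fun t _ => hL t) (fun t _ => hR t), hT,
    fun t ht => (hC t ht).trans (hc t ht)⟩

/-- Inserting letters each of which can vanish on its own. -/
theorem Van.ins {σ : ℕ → Let X} {R : ℕ → Set X} {T : ℕ} {u y : List X} (hs : u.Sublist y) :
    ∀ {L C : ℕ → Set X}, Van σ L R C T u → (∀ a ∈ y, Van σ L R (fun _ => ∅) T [a]) →
      Van σ L R C T y := by
  induction hs generalizing R with
  | slnil => exact fun h _ => h
  | @cons u y a _ ih =>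
    intro L C h ha
    obtain ⟨ζ, e, r, hT, hc⟩ := ih h (fun b hb => ha b (by simp [hb]))
    obtain ⟨τ, e', r', hT', -⟩ := ha a (by simp)
    refine ⟨fun t => τ t ++ ζ t, by simp [e, e'], Run.append
      (r'.mono (fun _ _ _ => le_rfl) (fun _ _ _ => Set.subset_union_left))
      (r.mono (fun _ _ _ => Set.subset_union_left) (fun _ _ _ => le_rfl)), by simp [hT, hT'],
      fun t ht => (hc t ht).trans (by simp)⟩
  | @cons_cons u y a _ ih =>
    intro L C h ha
    obtain ⟨ζ, e, r, hT, hc⟩ := h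
    obtain ⟨ζ1, ζ2, e1, e2, es, r1, r2⟩ := r.split (u := [a]) (v := u) e
    have hT' := es T (Nat.zero_le _) le_rfl
    rw [hT] at hT'
    simp at hT'
    obtain ⟨ξ, f0, f1, f2, f3⟩ := ih (L := fun t => L t ∪ ct (ζ1 t)) (C := fun t => ct (ζ2 t))
      ⟨ζ2, e2, r2, hT'.2, fun _ _ => le_rfl⟩
      (fun b hb => (ha b (by simp [hb])).mono (fun _ _ => Set.subset_union_left)
        (fun _ _ => le_rfl) (fun _ _ => le_rfl))
    refine ⟨fun t => ζ1 t ++ ξ t, by simp [e1, f0], Run.append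
      (r1.mono (fun _ _ _ => le_rfl) (fun t _ ht => Set.union_subset_union_right _ (f3 t ht))) f1,
      by simp [hT'.1, f2], fun t ht => (hc t ht).trans ?_⟩
    rw [es t (Nat.zero_le _) ht.le]
    simp only [ct_append]
    exact Set.union_subset_union_right _ (f3 t ht)

theorem van_token {σ : ℕ → Let X} {L R : ℕ → Set X} {T : ℕ} {ζ : ℕ → List X}
    (r : Run σ L R 0 T ζ) (hT : ζ T = []) {a : X} (ha : a ∈ ζ 0) :
    Van σ (fun t => L t ∪ ct (ζ t)) (fun t => R t ∪ ct (ζ t)) (fun _ => ∅) T [a] := by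
  obtain ⟨p, q, e⟩ := List.append_of_mem ha
  have e' : ζ 0 = p ++ [a] ++ q := by simp [e]
  obtain ⟨ζp, ζa, ζq, -, ea, -, es, -, ra, -⟩ := r.split3 e'
  have hT' := es T (Nat.zero_le _) le_rfl
  rw [hT] at hT'
  simp at hT'
  refine ⟨ζa, ea, ra.mono (fun t g1 g2 => ?_) (fun t g1 g2 => ?_), hT'.2.1, by simp⟩
  · rw [es t g1 g2.le]; intro b hb; simp at hb ⊢; tauto
  · rw [es t g1 g2.le]; intro b hb; simp at hb ⊢; tauto

/-- The mimicking lemma. -/
theorem mimic {p m s y : List X} (hs : ((m ++ s) ++ (p ++ m)).Sublist y)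
    (hp : ct y ⊆ ct p) (hq : ct y ⊆ ct s) : Red (p ++ y ++ s) (p ++ m ++ s) := by
  intro σ L R C T ⟨ω, e, r, hT, hc⟩
  obtain ⟨y1, y2, rfl, s1, s2⟩ := List.append_sublist_iff.mp hs
  obtain ⟨ωp, ωm, ωs, ep, em, es, ee, rp, rm, rs⟩ := r.split3 e
  have hT' := ee T (Nat.zero_le _) le_rfl
  rw [hT] at hT'
  simp at hT'
  obtain ⟨hTp, hTm, hTs⟩ := hT'
  have v1 : Van σ (fun t => L t ∪ ct (ωp t)) (fun t => R t ∪ ct (ω t))
      (fun t => ct (ωm t ++ ωs t)) T y1 := by
    refine Van.ins s1 ⟨fun t => ωm t ++ ωs t, by simp [em, es], Run.append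
      (rm.mono (fun _ _ _ => le_rfl) (fun t _ _ => ?_))
      (rs.mono (fun _ _ _ => le_rfl) (fun t _ _ => Set.subset_union_left)),
      by simp [hTm, hTs], fun _ _ => le_rfl⟩ (fun a ha => ?_)
    · intro b hb; simp at hb ⊢; tauto
    · have ha' : a ∈ ωp 0 := by rw [ep]; exact hp (by simp [ha])
      refine (van_token rp hTp ha').mono (fun _ _ => le_rfl) (fun t ht => ?_) (fun _ _ => le_rfl)
      rw [ee t (Nat.zero_le _) ht.le]
      intro b hb; simp at hb ⊢; tauto
  have v2 : Van σ (fun t => L t ∪ ct (ω t)) (fun t => R t ∪ ct (ωs t))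
      (fun t => ct (ωp t ++ ωm t)) T y2 := by
    refine Van.ins s2 ⟨fun t => ωp t ++ ωm t, by simp [em, ep], Run.append
      (rp.mono (fun _ _ _ => Set.subset_union_left) (fun t _ _ => ?_))
      (rm.mono (fun t _ _ => ?_) (fun _ _ _ => le_rfl)),
      by simp [hTm, hTp], fun _ _ => le_rfl⟩ (fun a ha => ?_)
    · intro b hb; simp at hb ⊢; tauto
    · intro b hb; simp at hb ⊢; tauto
    · have ha' : a ∈ ωs 0 := by rw [es]; exact hq (by simp [ha])
      refine (van_token rs hTs ha').mono (fun t ht => ?_) (fun _ _ => le_rfl) (fun _ _ => le_rfl)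
      rw [ee t (Nat.zero_le _) ht.le]
      intro b hb; simp at hb ⊢; tauto
  obtain ⟨ψ1, a0, a1, a2, a3⟩ := v1
  obtain ⟨ψ2, b0, b1, b2, b3⟩ := v2
  refine ⟨fun t => ωp t ++ (ψ1 t ++ ψ2 t) ++ ωs t, by simp [ep, es, a0, b0],
    Run.append3 (rp.mono (fun _ _ _ => le_rfl) (fun t _ ht => ?_))
      (Run.append (a1.mono (fun _ _ _ => le_rfl) (fun t _ ht => ?_))
        (b1.mono (fun t _ ht => ?_) (fun _ _ _ => le_rfl)))
      (rs.mono (fun t _ ht => ?_) (fun _ _ _ => le_rfl)),
    by simp [hTp, hTs, a2, b2], fun t ht => (hc t ht).trans ?_⟩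
  · have := a3 t ht
    intro b hb
    have h' := @this b
    simp at hb h' ⊢; tauto
  · have := b3 t ht
    rw [ee t (Nat.zero_le _) ht.le]
    intro b hb
    have h' := @this b
    simp at hb h' ⊢; tauto
  · have := a3 t ht
    rw [ee t (Nat.zero_le _) ht.le]
    intro b hb
    have h' := @this b
    simp at hb h' ⊢; tauto
  · have := a3 t ht
    intro b hb
    have h' := @this b
    simp at hb h' ⊢; tauto
  · have := a3 t ht
    rw [ee t (Nat.zero_le _) ht.le]
    intro b hb
    have h' := @this b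
    simp at hb h' ⊢; tauto

/-- The word `w` can always be shrunk to length at most `K`. -/
def Shr (B K : ℕ) (w : List X) : Prop :=
  ∀ (σ : ℕ → Let X) (L R C : ℕ → Set X) (T : ℕ), (∀ t, t < T → (σ t).x.length ≤ B) →
    Van σ L R C T w → ∃ w', w'.length ≤ K ∧ ct w' = ct w ∧ Red w w' ∧ Van σ L R C T w'

theorem Shr.self (B : ℕ) (w : List X) : Shr B w.length w :=
  fun _ _ _ _ _ _ h => ⟨w, le_rfl, rfl, Red.refl _, h⟩

theorem Shr.mono {B K K' : ℕ} {w : List X} (h : Shr B K w) (hK : K ≤ K') : Shr B K' w := by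
  intro σ L R C T hB hv
  obtain ⟨w', h1, h2⟩ := h σ L R C T hB hv
  exact ⟨w', h1.trans hK, h2⟩

theorem Shr.ctx {B K : ℕ} {w : List X} (h : Shr B K w) {σ : ℕ → Let X} {L R C : ℕ → Set X}
    {T : ℕ} (hB : ∀ t, t < T → (σ t).x.length ≤ B) {p q : List X}
    (hv : Van σ L R C T (p ++ w ++ q)) :
    ∃ w', w'.length ≤ K ∧ ct w' = ct w ∧ Red (p ++ w ++ q) (p ++ w' ++ q) ∧
      Van σ L R C T (p ++ w' ++ q) := by
  obtain ⟨L', R', C', h1, h2⟩ := hv.replace
  obtain ⟨w', g1, g2, g3, g4⟩ := h σ L' R' C' T hB h1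
  exact ⟨w', g1, g2, g3.ctx p q, h2 w' g4⟩

theorem Shr.append {B K1 K2 : ℕ} {u v : List X} (h1 : Shr B K1 u) (h2 : Shr B K2 v) :
    Shr B (K1 + K2) (u ++ v) := by
  intro σ L R C T hB hv
  obtain ⟨u', a1, a2, a3, a4⟩ := h1.ctx hB (p := []) (q := v) (by simpa using hv)
  obtain ⟨v', b1, b2, b3, b4⟩ := h2.ctx hB (p := u') (q := []) (by simpa using a4)
  refine ⟨u' ++ v', by simp; omega, by simp [a2, b2], ?_, by simpa using b4⟩
  simp only [List.nil_append, List.append_nil] at a3 b3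
  exact a3.trans b3

theorem split_first (z : List X) (hz : z ≠ []) :
    ∃ p a q, z = p ++ a :: q ∧ a ∉ p ∧ ct z ⊆ ct (p ++ [a]) := by
  induction z using List.reverseRecOn with
  | nil => exact absurd rfl hz
  | append_singleton z b ih =>
    by_cases hb : b ∈ z
    · obtain ⟨p, a, q, e, h1, h2⟩ := ih (List.ne_nil_of_mem hb)
      refine ⟨p, a, q ++ [b], by simp [e], h1, ?_⟩
      rw [ct_append]
      refine Set.union_subset h2 ?_
      intro y hy
      simp at hy
      exact h2 (hy ▸ hb)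
    · exact ⟨z, b, [], rfl, hb, le_rfl⟩

theorem split_last (z : List X) (hz : z ≠ []) :
    ∃ p a q, z = p ++ a :: q ∧ a ∉ q ∧ ct z ⊆ ct (a :: q) := by
  induction z with
  | nil => exact absurd rfl hz
  | cons b z ih =>
    by_cases hb : b ∈ z
    · obtain ⟨p, a, q, e, h1, h2⟩ := ih (List.ne_nil_of_mem hb)
      refine ⟨b :: p, a, q, by simp [e], h1, ?_⟩
      rw [ct_cons]
      exact Set.insert_subset (h2 hb) h2
    · exact ⟨[], b, z, rfl, hb, le_rfl⟩

theorem dichotomy {B K : ℕ} {S : Set X} (hS : S.Nonempty)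
    (hK : ∀ w : List X, ct w ⊂ S → Shr B K w) (j : ℕ) :
    ∀ z : List X, ct z ⊆ S → Shr B (j * (K + 1)) z ∨
      ∀ w : List X, ct w ⊆ S → w.length ≤ j → w.Sublist z := by
  induction j with
  | zero =>
    intro z _
    right
    intro w _ hw
    rw [List.length_eq_zero_iff.mp (Nat.le_zero.mp hw)]
    exact List.nil_sublist _
  | succ j ih =>
    intro z hz
    rcases hz.ssubset_or_eq with h | h
    · exact Or.inl ((hK z h).mono (by nlinarith))
    have hne : z ≠ [] := by
      rintro rfl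
      rw [← h] at hS
      simp at hS
    obtain ⟨p, a, q, e, h1, h2⟩ := split_first z hne
    have hp : ct p ⊂ S := by
      rw [← h]
      refine ⟨by rw [e]; intro x hx; simp at hx ⊢; tauto, fun hc => h1 (hc (show a ∈ ct z by simp [e]))⟩
    rcases ih q (fun y hy => hz (by rw [e]; simp; exact Or.inr (Or.inr hy))) with g | g
    · left
      have := ((hK p hp).append (Shr.self B [a])).append g
      rw [e]
      simp only [List.append_assoc, List.singleton_append, List.length_singleton] at this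
      exact this.mono (by nlinarith)
    · right
      intro w hw hl
      cases w with
      | nil => exact List.nil_sublist _
      | cons b w =>
        have hb : b ∈ p ++ [a] := h2 (h ▸ hw (by simp))
        have s1 : [b].Sublist (p ++ [a]) := List.singleton_sublist.mpr hb
        have s2 := g w (fun y hy => hw (by simp; exact Or.inr hy)) (by simpa using hl)
        have := s1.append s2
        simpa [e] using this

theorem shrink_card (X : Type) [Finite X] (B n : ℕ) :
    ∃ K : ℕ, ∀ w : List X, (ct w).ncard ≤ n → Shr B K w := by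
  induction n with
  | zero =>
    refine ⟨0, fun w hw => ?_⟩
    have : ct w = ∅ := (Set.ncard_eq_zero (Set.toFinite _)).mp (Nat.le_zero.mp hw)
    have hw' : w = [] := List.eq_nil_iff_forall_not_mem.mpr (fun y hy => by
      have h' : y ∈ ct w := hy
      rw [this] at h'
      exact h')
    subst hw'
    exact Shr.self B []
  | succ n ih =>
    obtain ⟨K, hK⟩ := ih
    obtain ⟨K1, hK1⟩ := left_block' X B
    obtain ⟨K2, hK2⟩ := right_block' X B
    refine ⟨(K + 1) + (2 * (K1 + K2) + 2 * (K + 1)) * (K + 1) + (K1 + K2) + (K + 1),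
      fun z hz => ?_⟩
    have hsub : ∀ w : List X, ct w ⊂ ct z → Shr B K w := fun w hw =>
      hK w (by have := Set.ncard_lt_ncard hw (Set.toFinite _); omega)
    by_cases hne : z = []
    · subst hne; exact (Shr.self B []).mono (by simp)
    obtain ⟨p, a, z2, e, h1, h2⟩ := split_first z hne
    have hp : ct p ⊂ ct z :=
      ⟨by rw [e]; intro x hx; simp at hx ⊢; tauto, fun hc => h1 (hc (show a ∈ ct z by simp [e]))⟩
    have hP : Shr B (K + 1) (p ++ [a]) := (hsub p hp).append (Shr.self B [a])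
    have hz2 : ct z2 ⊆ ct z := fun y hy => by rw [e]; simp; exact Or.inr (Or.inr hy)
    rcases hz2.ssubset_or_eq with h | h
    · have := hP.append (hsub z2 h)
      rw [e]
      simp only [List.append_assoc, List.singleton_append] at this
      exact this.mono (by nlinarith)
    have hne2 : z2 ≠ [] := by
      rintro rfl
      have : a ∈ ct z := by simp [e]
      rw [← h] at this
      simp at this
    obtain ⟨y, b, s, e2, h3, h4⟩ := split_last z2 hne2
    have hs : ct s ⊂ ct z := by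
      rw [← h]
      refine ⟨?_, fun hc => h3 (hc (show b ∈ ct z2 by simp [e2]))⟩
      rw [e2]; intro y hy; simp; exact Or.inr (Or.inr hy)
    have hS : Shr B (1 + K) (b :: s) := (Shr.self B [b]).append (hsub s hs)
    have ez : z = (p ++ [a]) ++ y ++ (b :: s) := by simp [e, e2]
    have hy : ct y ⊆ ct z := by rw [ez]; intro x hx; simp at hx ⊢; tauto
    rcases dichotomy ⟨a, show a ∈ ct z by simp [e]⟩ hsub (2 * (K1 + K2) + 2 * (K + 1)) y hy
      with g | g
    · have := (hP.append g).append hS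
      rw [ez]
      exact this.mono (by nlinarith)
    intro σ L R C T hB hv
    rw [ez] at hv
    obtain ⟨P, a1, a2, a3, a4⟩ := hP.ctx hB (p := []) (q := y ++ b :: s) (by simpa using hv)
    obtain ⟨S, b1, b2, b3, b4⟩ := hS.ctx hB (p := P ++ y) (q := []) (by simpa using a4)
    simp only [List.nil_append, List.append_nil] at a3 b3 b4
    have hPz : ct P = ct z := by
      rw [a2]
      refine Set.Subset.antisymm ?_ h2
      rw [ez]; intro x hx; simp at hx ⊢; tauto
    have hSz : ct S = ct z := by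
      rw [b2]
      refine Set.Subset.antisymm ?_ (h ▸ h4)
      rw [ez]; intro x hx; simp at hx ⊢; tauto
    obtain ⟨ζ, e0, r, hT, hc⟩ := b4
    obtain ⟨η, rη, η0, η1, η2, η3⟩ := hK1 σ L R T ζ hB r hT
    obtain ⟨θ, rθ, θ0, θ1, θ2, θ3⟩ := hK2 σ L R T ζ hB r hT
    have hζ0 : ct (ζ 0) ⊆ ct z := by
      rw [e0, ct_append, ct_append, hPz, hSz]
      exact Set.union_subset (Set.union_subset le_rfl hy) le_rfl
    obtain ⟨ζp, ζy, ζs, ep, -, es, ee, rp, -, rs⟩ := r.split3 e0
    have hT' := ee T (Nat.zero_le _) le_rfl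
    rw [hT] at hT'
    simp at hT'
    refine ⟨P ++ (η 0 ++ θ 0) ++ S, by simp; nlinarith, ?_, ?_, ?_⟩
    · simp only [ct_append, hPz, hSz]
      refine Set.Subset.antisymm ?_ Set.subset_union_right
      exact Set.union_subset (Set.union_subset le_rfl
        (Set.union_subset (η2.trans hζ0) (θ2.trans hζ0))) le_rfl
    · rw [ez, List.append_assoc]
      refine a3.trans ?_
      rw [← List.append_assoc]
      refine b3.trans (mimic (g _ ?_ ?_) (hPz ▸ hy) (hSz ▸ hy))
      · simp only [ct_append, hPz, hSz]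
        have := Set.union_subset (η2.trans hζ0) (θ2.trans hζ0)
        exact Set.union_subset (Set.union_subset this le_rfl) (Set.union_subset le_rfl this)
      · simp; omega
    · refine ⟨fun t => ζp t ++ (η t ++ θ t) ++ ζs t, by simp [ep, es],
        Run.append3 (rp.mono (fun _ _ _ => le_rfl) (fun t _ ht => ?_))
          (Run.append (rη.mono (fun _ _ _ => Set.subset_union_left) (fun t _ ht => ?_))
            (rθ.mono (fun t _ ht => ?_) (fun _ _ _ => Set.subset_union_left)))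
          (rs.mono (fun t _ ht => ?_) (fun _ _ _ => le_rfl)),
        by simp [hT'.1, hT'.2.2, η0, θ0], fun t ht => (hc t ht).trans ((η3 t ht).trans ?_)⟩
      · have := η3 t ht
        rw [ee t (Nat.zero_le _) ht.le] at this
        intro x hx
        have h' := @this x
        simp at hx h' ⊢; tauto
      · have := θ3 t ht
        intro x hx
        have h' := @this x
        simp at hx h' ⊢; tauto
      · have := η3 t ht
        intro x hx
        have h' := @this x
        simp at hx h' ⊢; tauto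
      · have := η3 t ht
        rw [ee t (Nat.zero_le _) ht.le] at this
        intro x hx
        have h' := @this x
        simp at hx h' ⊢; tauto
      · intro x hx; simp at hx ⊢; tauto

/-- The shrinking theorem. -/
theorem shrink (X : Type) [Finite X] (B : ℕ) : ∃ K : ℕ, ∀ w : List X, Shr B K w := by
  obtain ⟨K, hK⟩ := shrink_card X B (Set.univ : Set X).ncard
  exact ⟨K, fun w => hK w (Set.ncard_le_ncard (Set.subset_univ _) (Set.toFinite _))⟩

end Pool.Agent.Lib.MP_54fa60_lc
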