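import Pool.Agent.Lib.MP_54fa60_lc.LB

set_option autoImplicit false

namespace Pool.Agent.Lib.MP_54fa60_lc

variable {X : Type}

section
variable {σ : ℕ → Let X} {T : ℕ} {S0 : Set X} {Λ : Type} [Fintype Λ] {lam : ℕ → Λ}

omit [Fintype Λ] in
theorem last_of {k t : ℕ} (h : Use σ T S0 k t) :
    ∃ d, t ≤ d ∧ Use σ T S0 k d ∧ lam d = lam t ∧
      ∀ t', d < t' → Use σ T S0 k t' → lam t' ≠ lam d := by
  classical
  have hd := Nat.findGreatest_spec (P := fun d => Use σ T S0 k d ∧ lam d = lam t) h.1.le ⟨h, rfl⟩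
  have hmax : ∀ s, Use σ T S0 k s → lam s = lam t →
      s ≤ Nat.findGreatest (fun d => Use σ T S0 k d ∧ lam d = lam t) T :=
    fun s hs e => Nat.le_findGreatest hs.1.le ⟨hs, e⟩
  refine ⟨_, hmax t h rfl, hd.1, hd.2, fun t' g1 g2 g3 => ?_⟩
  have := hmax t' g2 (g3.trans hd.2)
  omega

omit [Fintype Λ] in
theorem first_of {k t : ℕ} (h : Use σ T S0 k t) :
    ∃ d, d ≤ t ∧ Use σ T S0 k d ∧ lam d = lam t ∧
      ∀ t', t' < d → Use σ T S0 k t' → lam t' ≠ lam d := by
  classical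
  have hex : ∃ d, Use σ T S0 k d ∧ lam d = lam t := ⟨t, h, rfl⟩
  have hd := Nat.find_spec hex
  exact ⟨_, Nat.find_min' hex ⟨h, rfl⟩, hd.1, hd.2,
    fun t' g1 g2 g3 => Nat.find_min hex g1 ⟨g2, g3.trans hd.2⟩⟩

open Classical in
theorem use_last (hlam : ∀ s t, s < T → t < T → lam s = lam t → σ s = σ t) {k k2 : ℕ}
    (hk : k ≤ k2) (hsame : ∀ t, Use σ T S0 k2 t → ∃ s, Use σ T S0 k s ∧ lam s = lam t)
    (n : ℕ) : ∀ t, Use σ T S0 k2 t → (∀ t', t < t' → Use σ T S0 k2 t' → lam t' ≠ lam t) →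
      (Finset.univ.filter (fun l => ∃ t', t < t' ∧ Use σ T S0 k2 t' ∧ lam t' = l)).card ≤ n →
      Use σ T S0 (k + n + 1) t := by
  induction n using Nat.strong_induction_on with
  | _ n ih =>
  intro t hu hlast hcard
  have aux : ∀ t', t < t' → Use σ T S0 k2 t' →
      ∃ t2, t < t2 ∧ (σ t').A ∈ Lev σ T S0 (k + n) t2 := by
    intro t' g1 g2
    obtain ⟨d, d1, d2, d3, d4⟩ := last_of (lam := lam) g2
    have hlt : (Finset.univ.filter (fun l => ∃ t', d < t' ∧ Use σ T S0 k2 t' ∧ lam t' = l)).card <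
        (Finset.univ.filter (fun l => ∃ t', t < t' ∧ Use σ T S0 k2 t' ∧ lam t' = l)).card := by
      apply Finset.card_lt_card
      rw [Finset.ssubset_iff_of_subset]
      · refine ⟨lam d, ?_, ?_⟩
        · simp only [Finset.mem_filter, Finset.mem_univ, true_and]
          exact ⟨d, by omega, d2, rfl⟩
        · simp only [Finset.mem_filter, Finset.mem_univ, true_and]
          rintro ⟨t'', e1, e2, e3⟩
          exact d4 t'' e1 e2 e3
      · intro l
        simp only [Finset.mem_filter, Finset.mem_univ, true_and]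
        rintro ⟨t'', e1, e2, e3⟩
        exact ⟨t'', by omega, e2, e3⟩
    have := ih _ (lt_of_lt_of_le hlt hcard) d d2 d4 le_rfl
    refine ⟨d, by omega, ?_⟩
    rw [← hlam d t' d2.1 g2.1 d3]
    exact Lev_mono (by omega) _ this.2.1
  obtain ⟨s, s1, s2⟩ := hsame t hu
  have hst : s ≤ t := by
    by_contra hc
    exact hlast s (by omega) (s1.mono hk) s2
  have es : σ s = σ t := hlam s t s1.1 hu.1 s2
  refine use_of hu.1 (Or.inr ⟨s, hst, ?_⟩) (fun P hP => ?_) (fun B hB => ?_)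
  · rw [← es]; exact Lev_mono (by omega) _ s1.2.1
  · obtain ⟨d, d1, d2, d3, d4⟩ := exists_last (hu.2.2.1 hP)
    have hdt : d ≠ t := by
      rintro rfl
      exact d4 hP
    obtain ⟨t2, e1, e2⟩ := aux d (by omega) d2
    refine Lev_interval (Or.inr ⟨s, hst, ?_⟩) ⟨t2, e1.le, d3 ▸ e2⟩
    exact Lev_mono (by omega) _ (s1.2.2.1 (es ▸ hP))
  · obtain ⟨d, d1, d2, d3, -⟩ := exists_last (hu.2.2.2 B hB)
    obtain ⟨t2, e1, e2⟩ := aux d (by omega) d2
    exact ⟨t2, e1, d3 ▸ e2⟩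

open Classical in
theorem use_first (hlam : ∀ s t, s < T → t < T → lam s = lam t → σ s = σ t) {k k2 : ℕ}
    (hk : k ≤ k2) (hsame : ∀ t, Use σ T S0 k2 t → ∃ s, Use σ T S0 k s ∧ lam s = lam t)
    (n : ℕ) : ∀ t, Use σ T S0 k2 t → (∀ t', t' < t → Use σ T S0 k2 t' → lam t' ≠ lam t) →
      (Finset.univ.filter (fun l => ∃ t', t' < t ∧ Use σ T S0 k2 t' ∧ lam t' = l)).card ≤ n →
      Use σ T S0 (k + n + 1) t := by
  induction n using Nat.strong_induction_on with
  | _ n ih =>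
  intro t hu hfirst hcard
  have aux : ∀ Y, Y ∈ Lev σ T S0 k2 t →
      Y ∈ S0 ∨ ∃ t1, t1 ≤ t ∧ Y ∈ Lev σ T S0 (k + n) t1 := by
    intro Y hY
    rcases exists_birth hY with h | ⟨t', g1, g2, g3⟩
    · exact Or.inl h
    obtain ⟨d, d1, d2, d3, d4⟩ := first_of (lam := lam) g2
    have hlt : (Finset.univ.filter (fun l => ∃ t', t' < d ∧ Use σ T S0 k2 t' ∧ lam t' = l)).card <
        (Finset.univ.filter (fun l => ∃ t', t' < t ∧ Use σ T S0 k2 t' ∧ lam t' = l)).card := by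
      apply Finset.card_lt_card
      rw [Finset.ssubset_iff_of_subset]
      · refine ⟨lam d, ?_, ?_⟩
        · simp only [Finset.mem_filter, Finset.mem_univ, true_and]
          exact ⟨d, by omega, d2, rfl⟩
        · simp only [Finset.mem_filter, Finset.mem_univ, true_and]
          rintro ⟨t'', e1, e2, e3⟩
          exact d4 t'' e1 e2 e3
      · intro l
        simp only [Finset.mem_filter, Finset.mem_univ, true_and]
        rintro ⟨t'', e1, e2, e3⟩
        exact ⟨t'', by omega, e2, e3⟩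
    have := ih _ (lt_of_lt_of_le hlt hcard) d d2 d4 le_rfl
    refine Or.inr ⟨d + 1, by omega, ?_⟩
    rw [← hlam d t' d2.1 g2.1 d3] at g3
    exact Lev_mono (by omega) _ (this.2.2.2 Y g3)
  obtain ⟨s, s1, s2⟩ := hsame t hu
  have hst : t ≤ s := by
    by_contra hc
    exact hfirst s (by omega) (s1.mono hk) s2
  have es : σ s = σ t := hlam s t s1.1 hu.1 s2
  refine use_of hu.1 (aux _ hu.2.1) (fun P hP => ?_) (fun B hB => ?_)
  · refine Lev_interval (aux _ (hu.2.2.1 hP)) ⟨s, hst, ?_⟩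
    exact Lev_mono (by omega) _ (s1.2.2.1 (es ▸ hP))
  · exact ⟨s + 1, by omega, Lev_mono (by omega) _ (s1.2.2.2 B (es ▸ hB))⟩

theorem Lev_stable_of (hlam : ∀ s t, s < T → t < T → lam s = lam t → σ s = σ t) {k k2 : ℕ}
    (hk : k ≤ k2) (hsame : ∀ t, Use σ T S0 k2 t → ∃ s, Use σ T S0 k s ∧ lam s = lam t)
    (t : ℕ) : Lev σ T S0 k2 t ⊆ Lev σ T S0 (k + Fintype.card Λ + 1) t := by
  classical
  intro Y hY
  refine Lev_interval ?_ ?_
  · rcases exists_birth hY with h | ⟨t', g1, g2, g3⟩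
    · exact Or.inl h
    obtain ⟨d, d1, d2, d3, d4⟩ := first_of (lam := lam) g2
    have := use_first hlam hk hsame (Fintype.card Λ) d d2 d4 (Finset.card_le_univ _)
    rw [← hlam d t' d2.1 g2.1 d3] at g3
    exact Or.inr ⟨d + 1, by omega, this.2.2.2 Y g3⟩
  · obtain ⟨t', g1, g2, g3, -⟩ := exists_last hY
    obtain ⟨d, d1, d2, d3, d4⟩ := last_of (lam := lam) g2
    have := use_last hlam hk hsame (Fintype.card Λ) d d2 d4 (Finset.card_le_univ _)
    refine ⟨d, by omega, ?_⟩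
    rw [← g3, ← hlam d t' d2.1 g2.1 d3]
    exact this.2.1

theorem exists_stable (hlam : ∀ s t, s < T → t < T → lam s = lam t → σ s = σ t) :
    ∃ k, k ≤ (Fintype.card Λ + 1) * (Fintype.card Λ + 2) ∧
      ∀ t, FF σ T S0 (Lev σ T S0 k) t ⊆ Lev σ T S0 k t := by
  classical
  set c := Fintype.card Λ with hc
  let A : ℕ → Finset Λ := fun j =>
    Finset.univ.filter (fun l => ∃ t, Use σ T S0 (j * (c + 2)) t ∧ lam t = l)
  have hmono : ∀ j, A j ⊆ A (j + 1) := by
    intro j l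
    simp only [A, Finset.mem_filter, Finset.mem_univ, true_and]
    rintro ⟨t, h1, h2⟩
    exact ⟨t, h1.mono (by nlinarith), h2⟩
  have hex : ∃ j, j ≤ c ∧ A (j + 1) ⊆ A j := by
    by_contra hn
    push Not at hn
    have : ∀ j, j ≤ c + 1 → j ≤ (A j).card := by
      intro j
      induction j with
      | zero => simp
      | succ j ih =>
        intro hj
        have h1 := ih (by omega)
        have h2 : (A j).card < (A (j + 1)).card :=
          Finset.card_lt_card ⟨hmono j, hn j (by omega)⟩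
        omega
    have h1 := this (c + 1) le_rfl
    have h2 : (A (c + 1)).card ≤ c := Finset.card_le_univ _
    omega
  obtain ⟨j, hj, hA⟩ := hex
  refine ⟨j * (c + 2) + c + 1, by nlinarith, fun t => ?_⟩
  refine (FF_sub_Lev _ _).trans ?_
  have e : j * (c + 2) + c + 1 + 1 = (j + 1) * (c + 2) := by ring
  rw [e]
  refine Lev_stable_of hlam (by nlinarith) (fun t ht => ?_) t
  have : lam t ∈ A (j + 1) := by
    simp only [A, Finset.mem_filter, Finset.mem_univ, true_and]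
    exact ⟨t, ht, rfl⟩
  have := hA this
  simp only [A, Finset.mem_filter, Finset.mem_univ, true_and] at this
  exact this

theorem realize_one (C : ℕ → Set X) (Y : X) :
    ∃ η : ℕ → List X, LRun σ C 0 T η ∧ (η 0).length ≤ 3 ∧ ct (η 0) ⊆ S0 ∧
      ∀ t, Y ∈ II S0 (FF σ T S0 C) t → Y ∈ η t := by
  classical
  by_cases hne : ∃ t, Y ∈ FF σ T S0 C t
  swap
  · refine ⟨fun _ => [], LRun.nil _ _, by simp, by simp, fun t ht => ?_⟩
    obtain ⟨-, t2, -, h⟩ := ht
    exact absurd ⟨t2, h⟩ hne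
  have hb := Nat.find_spec hne
  have hbmin : ∀ s, Y ∈ FF σ T S0 C s → Nat.find hne ≤ s := fun s hs => Nat.find_min' hne hs
  have hd : Y ∈ FF σ T S0 C (Nat.findGreatest (fun d => Y ∈ FF σ T S0 C d) T) :=
    Nat.findGreatest_spec (P := fun d => Y ∈ FF σ T S0 C d) hb.1.le hb
  have hdmax : ∀ s, Y ∈ FF σ T S0 C s → s ≤ Nat.findGreatest (fun d => Y ∈ FF σ T S0 C d) T :=
    fun s hs => Nat.le_findGreatest hs.1.le hs
  generalize Nat.findGreatest (fun d => Y ∈ FF σ T S0 C d) T = d at hd hdmax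
  generalize Nat.find hne = b at hb hbmin
  have hbd := hdmax b hb
  obtain ⟨hdT, ad, had, πd, ed, rd, hYd⟩ := hd
  obtain ⟨hbT, ab, hab, πb, eb, rb, hYb⟩ := hb
  have hv : Vn σ T (fun t => C t ∪ ct (πb t ++ πd t)) d Y :=
    vn_of_mem rd (Nat.zero_le _) hdT hYd (fun s _ _ => by
      intro y hy; simp at hy ⊢; tauto)
  by_cases hS : Y ∈ S0
  · obtain ⟨ρ, e, r⟩ := hv.hold (t1 := 0) hdT
    refine ⟨fun t => (πb t ++ πd t) ++ ρ t, (rb.append' rd).append r, ?_, ?_, fun t ht => ?_⟩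
    · simp [eb, ed, e 0 (Nat.zero_le _)]
    · simp only [eb, ed, e 0 (Nat.zero_le _)]
      intro y hy; simp at hy
      rcases hy with rfl | rfl | rfl <;> assumption
    · obtain ⟨-, t2, g1, g2⟩ := ht
      have := hdmax t2 g2
      simp [e t (by omega)]
  · obtain ⟨ρ, e, r⟩ := hv.hold (t1 := b) hdT
    obtain ⟨π', e', r', hc⟩ := splice rb hYb hbT (e b hbd) r (fun s _ => by
      intro y hy; simp at hy ⊢; tauto)
    refine ⟨fun t => (πb t ++ πd t) ++ π' t, (rb.append' rd).append r', ?_, ?_, fun t ht => ?_⟩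
    · simp [eb, ed, e']
    · simp only [eb, ed, e']
      intro y hy; simp at hy
      rcases hy with rfl | rfl | rfl <;> assumption
    · obtain ⟨h | ⟨t1, g3, g4⟩, t2, g1, g2⟩ := ht
      · exact absurd h hS
      have h1 := hdmax t2 g2
      have h2 := hbmin t1 g4
      have : Y ∈ ct (π' t) := hc t (by omega) (by omega) (by simp [e t (by omega)])
      exact List.mem_append_right _ this

theorem realize_list (C : ℕ → Set X) (l : List X) :
    ∃ η : ℕ → List X, LRun σ C 0 T η ∧ (η 0).length ≤ 3 * l.length ∧ ct (η 0) ⊆ S0 ∧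
      ∀ Y ∈ l, ∀ t, Y ∈ II S0 (FF σ T S0 C) t → Y ∈ η t := by
  induction l with
  | nil => exact ⟨fun _ => [], LRun.nil _ _, by simp, by simp, by simp⟩
  | cons Y l ih =>
    obtain ⟨η, r, h1, h2, h3⟩ := ih
    obtain ⟨η', r', h1', h2', h3'⟩ := realize_one (σ := σ) (T := T) (S0 := S0) C Y
    refine ⟨fun t => η' t ++ η t, r'.append' r, by simp; omega, by simp [h2, h2'], ?_⟩
    intro Z hZ t ht
    rcases List.mem_cons.mp hZ with rfl | hZ
    · exact List.mem_append_left _ (h3' t ht)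
    · exact List.mem_append_right _ (h3 Z hZ t ht)

theorem realize_Lev [Fintype X] (k : ℕ) :
    ∃ η : ℕ → List X, LRun σ (fun _ => ∅) 0 T η ∧ (η 0).length ≤ 3 * Fintype.card X * k ∧
      ct (η 0) ⊆ S0 ∧ ∀ t, Lev σ T S0 k t ⊆ ct (η t) := by
  induction k with
  | zero => exact ⟨fun _ => [], LRun.nil _ _, by simp, by simp, by simp [Lev]⟩
  | succ k ih =>
    obtain ⟨η, r, h1, h2, h3⟩ := ih
    obtain ⟨η', r', h1', h2', h3'⟩ := realize_list (σ := σ) (T := T) (S0 := S0)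
      (Lev σ T S0 k) (Finset.univ.toList)
    refine ⟨fun t => η t ++ η' t, r.append (r'.mono (fun t _ _ => ?_)), ?_, by simp [h2, h2'],
      fun t Y hY => ?_⟩
    · exact (h3 t).trans Set.subset_union_right
    · simp at h1' ⊢; nlinarith
    · exact List.mem_append_right _ (h3' Y (by simp) t hY)

theorem cover_of_stable {D : ℕ → Set X} (hD : ∀ t, FF σ T S0 D t ⊆ D t) (z : List X) :
    ∀ (ζ : ℕ → List X) (C : ℕ → Set X), ζ 0 = z → ct z ⊆ S0 → LRun σ C 0 T ζ →
      (∀ t, t < T → C t ⊆ D t) → ∀ t, t < T → ct (ζ t) ⊆ D t := by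
  induction z with
  | nil =>
    intro ζ C e _ r _ t ht
    simp [r.1.eq_nil e t (Nat.zero_le _) ht.le]
  | cons a z ih =>
    intro ζ C e hz r hC t ht
    obtain ⟨ζ1, ζ2, e1, e2, es, r1, r2⟩ := r.1.split (u := [a]) (v := z) e
    have hT := es T (Nat.zero_le _) le_rfl
    rw [r.2] at hT
    simp at hT
    have r1' : LRun σ D 0 T ζ1 :=
      ⟨r1.mono (fun s _ hs => hC s hs) (fun _ _ _ => Set.subset_univ _), hT.1⟩
    have c1 : ∀ s, s < T → ct (ζ1 s) ⊆ D s := fun s hs =>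
      (cover_sub (hz (by simp)) e1 r1' hs).trans (hD s)
    have c2 := ih ζ2 _ e2 (fun y hy => hz (by simp; exact Or.inr hy)) ⟨r2, hT.2⟩
      (fun s hs => Set.union_subset (hC s hs) (c1 s hs)) t ht
    rw [es t (Nat.zero_le _) ht.le, ct_append]
    exact Set.union_subset (c1 t ht) c2

end

/-- The left block lemma. -/
theorem left_block (X Λ : Type) [Finite X] [Finite Λ] :
    ∃ K : ℕ, ∀ (σ : ℕ → Let X) (T : ℕ) (lam : ℕ → Λ) (ζ : ℕ → List X),
      (∀ s t, s < T → t < T → lam s = lam t → σ s = σ t) → LRun σ (fun _ => ∅) 0 T ζ →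
      ∃ η : ℕ → List X, LRun σ (fun _ => ∅) 0 T η ∧ (η 0).length ≤ K ∧
        ct (η 0) ⊆ ct (ζ 0) ∧ ∀ t, t < T → ct (ζ t) ⊆ ct (η t) := by
  cases nonempty_fintype X
  cases nonempty_fintype Λ
  refine ⟨3 * Fintype.card X * ((Fintype.card Λ + 1) * (Fintype.card Λ + 2)),
    fun σ T lam ζ hlam r => ?_⟩
  obtain ⟨k, hk, hs⟩ := exists_stable (S0 := ct (ζ 0)) hlam
  obtain ⟨η, r', h1, h2, h3⟩ := realize_Lev (σ := σ) (T := T) (S0 := ct (ζ 0)) k
  refine ⟨η, r', h1.trans (Nat.mul_le_mul_left _ hk), h2, fun t ht => ?_⟩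
  exact (cover_of_stable hs _ ζ _ rfl le_rfl r (fun _ _ => by simp) t ht).trans (h3 t)

end Pool.Agent.Lib.MP_54fa60_lc
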